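import Pool.Agent.W181.WH.Stm

/-!
# Project WH: CV
-/

open MeasureTheory Filter Topology

namespace Pool.Agent.W181.WH

theorem t_cv : S_CV := by
  intro n f
  set E : (Fin n → ℝ) → (Fin n → ℝ) := fun ξ j => Real.exp (ξ j) with hE
  set E' : (Fin n → ℝ) → ((Fin n → ℝ) →L[ℝ] (Fin n → ℝ)) :=
    fun ξ => ContinuousLinearMap.pi fun j => Real.exp (ξ j) • ContinuousLinearMap.proj (R := ℝ) j
    with hE'
  have hd : ∀ ξ ∈ (Set.univ : Set (Fin n → ℝ)), HasFDerivWithinAt E (E' ξ) Set.univ ξ := by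
    intro ξ _
    rw [hasFDerivWithinAt_univ]
    refine hasFDerivAt_pi.mpr fun j => ?_
    exact (hasFDerivAt_apply (𝕜 := ℝ) j ξ).exp
  have hinj : Set.InjOn E Set.univ := by
    intro a _ b _ h
    funext j
    exact Real.exp_injective (congrFun h j)
  have himg : E '' Set.univ = {y : Fin n → ℝ | ∀ j, 0 < y j} := by
    ext y
    constructor
    · rintro ⟨ξ, _, rfl⟩ j
      exact Real.exp_pos _
    · intro hy
      exact ⟨fun j => Real.log (y j), trivial, funext fun j => Real.exp_log (hy j)⟩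
  have hdet : ∀ ξ, |(E' ξ).det| = ∏ j, Real.exp (ξ j) := by
    intro ξ
    have h1 : ((E' ξ : (Fin n → ℝ) →L[ℝ] (Fin n → ℝ)) : (Fin n → ℝ) →ₗ[ℝ] (Fin n → ℝ)) =
        Matrix.toLin' (Matrix.diagonal fun j => Real.exp (ξ j)) := by
      ext x j
      simp [hE', Matrix.mulVec_diagonal, Matrix.toLin'_apply]
    have h2 : (E' ξ).det = ∏ j, Real.exp (ξ j) := by
      rw [ContinuousLinearMap.det, h1, LinearMap.det_toLin', Matrix.det_diagonal]
    rw [h2, abs_of_nonneg (Finset.prod_nonneg fun j _ => (Real.exp_pos _).le)]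
  have hsm : ∀ ξ, |(E' ξ).det| • f (E ξ) = (∏ j, (Real.exp (ξ j) : ℂ)) * f (fun j => Real.exp (ξ j)) := by
    intro ξ
    rw [hdet, Complex.real_smul]
    push_cast
    rfl
  constructor
  · rw [← himg, integrableOn_image_iff_integrableOn_abs_det_fderiv_smul volume MeasurableSet.univ
      hd hinj, integrableOn_univ]
    simp only [hsm]
  · rw [← himg, integral_image_eq_integral_abs_det_fderiv_smul volume MeasurableSet.univ
      hd hinj, setIntegral_univ]
    simp only [hsm]

end Pool.Agent.W181.WH
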