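import Pool.Agent.W181.WH.Stm

/-!
# Project WH: SPLIT and SPLITC
-/

open MeasureTheory Filter Topology

namespace Pool.Agent.W181.WH

/-- splitting the index set -/
def splF {m : ℕ} : Fin m ⊕ LIdx m → LIdx (m + 1)
  | Sum.inl i => ⟨(i.succ, 0), Fin.succ_pos i⟩
  | Sum.inr p => ⟨(p.1.1.succ, p.1.2.succ), Fin.succ_lt_succ_iff.mpr p.2⟩

theorem splF_bij {m : ℕ} : Function.Bijective (splF : Fin m ⊕ LIdx m → LIdx (m + 1)) := by
  constructor
  · rintro (i | p) (j | q) h
    · simp only [splF, Subtype.mk.injEq, Prod.mk.injEq, Fin.succ_inj, and_true] at h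
      rw [h]
    · simp only [splF, Subtype.mk.injEq, Prod.mk.injEq] at h
      exact absurd h.2.symm (Fin.succ_ne_zero _)
    · simp only [splF, Subtype.mk.injEq, Prod.mk.injEq] at h
      exact absurd h.2 (Fin.succ_ne_zero _)
    · simp only [splF, Subtype.mk.injEq, Prod.mk.injEq, Fin.succ_inj] at h
      congr 1
      exact Subtype.ext (Prod.ext h.1 h.2)
  · rintro ⟨⟨a, b⟩, h⟩
    simp only at h
    obtain ⟨a', rfl⟩ : ∃ a' : Fin m, a = a'.succ :=
      ⟨a.pred (Fin.pos_iff_ne_zero.mp (lt_of_le_of_lt (Fin.zero_le _) h)), by simp⟩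
    by_cases hb : b = 0
    · subst hb
      exact ⟨Sum.inl a', rfl⟩
    · obtain ⟨b', rfl⟩ : ∃ b' : Fin m, b = b'.succ := ⟨b.pred hb, by simp⟩
      exact ⟨Sum.inr ⟨(a', b'), Fin.succ_lt_succ_iff.mp h⟩, rfl⟩

/-- splitting the index set -/
noncomputable def splE {m : ℕ} : Fin m ⊕ LIdx m ≃ LIdx (m + 1) := Equiv.ofBijective splF splF_bij

/-- the splitting as a measurable equivalence -/
noncomputable def splM (m : ℕ) : (LIdx (m + 1) → ℝ) ≃ᵐ (Fin m → ℝ) × (LIdx m → ℝ) :=
  (MeasurableEquiv.piCongrLeft (fun _ : LIdx (m + 1) => ℝ) splE).symm.trans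
    (MeasurableEquiv.sumPiEquivProdPi (fun _ : Fin m ⊕ LIdx m => ℝ))

theorem splM_apply {m : ℕ} (v : LIdx (m + 1) → ℝ) : splM m v = (colZ v, colR v) := by
  refine Prod.ext ?_ ?_
  · funext i
    simp [splM, colZ, splE, splF, MeasurableEquiv.piCongrLeft, Equiv.piCongrLeft,
      Equiv.piCongrLeft', MeasurableEquiv.sumPiEquivProdPi, Equiv.sumPiEquivProdPi]
  · funext p
    simp [splM, colR, splE, splF, MeasurableEquiv.piCongrLeft, Equiv.piCongrLeft,
      Equiv.piCongrLeft', MeasurableEquiv.sumPiEquivProdPi, Equiv.sumPiEquivProdPi]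

theorem splM_mp (m : ℕ) : MeasurePreserving (splM m) volume (volume.prod volume) := by
  have h1 := (volume_measurePreserving_piCongrLeft (fun _ : LIdx (m + 1) => ℝ) (splE (m := m))).symm
  have h2 := volume_measurePreserving_sumPiEquivProdPi (fun _ : Fin m ⊕ LIdx m => ℝ)
  exact h2.comp h1

theorem sum_spl {M : Type*} [AddCommMonoid M] {m : ℕ} (f : LIdx (m + 1) → M) :
    ∑ p, f p = (∑ i : Fin m, f ⟨(i.succ, 0), Fin.succ_pos i⟩) +
      ∑ p : LIdx m, f ⟨(p.1.1.succ, p.1.2.succ), Fin.succ_lt_succ_iff.mpr p.2⟩ := by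
  rw [← Equiv.sum_comp splE f, Fintype.sum_sum_type]
  rfl

theorem t_splitc : S_SPLITC := by
  intro m v
  unfold ch
  rw [sum_spl, ← Complex.exp_add, ← mul_add]
  congr 2
  have h1 : (∑ i : Fin (m + 1), if (((⟨(i.succ, 0), Fin.succ_pos i⟩ : LIdx (m + 2)).1.1 : ℕ)) =
      (((⟨(i.succ, 0), Fin.succ_pos i⟩ : LIdx (m + 2)).1.2 : ℕ)) + 1 then
        v ⟨(i.succ, 0), Fin.succ_pos i⟩ else 0) = colZ v 0 := by
    rw [Finset.sum_eq_single (0 : Fin (m + 1))]
    · simp [colZ]
    · intro i _ hi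
      rw [if_neg]
      simp only [Fin.val_succ, Fin.val_zero]
      intro h
      exact hi (Fin.ext (by simpa using h))
    · intro h
      exact absurd (Finset.mem_univ _) h
  rw [h1]
  push_cast
  congr 1
  refine Finset.sum_congr rfl fun p _ => ?_
  simp only [Fin.val_succ, add_left_inj, colR]

theorem lM_succ_zero {m : ℕ} (v : LIdx (m + 1) → ℝ) (i : Fin m) : lM v i.succ 0 = colZ v i := by
  unfold lM colZ
  rw [dif_pos (Fin.succ_pos i)]

theorem lM_succ_succ {m : ℕ} (v : LIdx (m + 1) → ℝ) (i j : Fin m) :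
    lM v i.succ j.succ = lM (colR v) i j := by
  unfold lM colR
  by_cases h : j < i
  · rw [dif_pos h, dif_pos (Fin.succ_lt_succ_iff.mpr h)]
  · rw [dif_neg h, dif_neg (fun h' => h (Fin.succ_lt_succ_iff.mp h'))]
    simp only [Fin.succ_inj]

theorem LDL_apply {n : ℕ} (A B : Matrix (Fin n) (Fin n) ℝ) (y : Fin n → ℝ) (a b : Fin n) :
    (A * Dg y * B.transpose) a b = ∑ c, A a c * Real.exp (2 * y c) * B b c := by
  rw [Matrix.mul_apply]
  refine Finset.sum_congr rfl fun c _ => ?_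
  unfold Dg
  rw [Matrix.mul_diagonal, Matrix.transpose_apply]

theorem PZ_eq {m : ℕ} (x : Fin (m + 1) → ℝ) (v : LIdx (m + 1) → ℝ) (i j : Fin m) :
    (lM v * Dg x * (lM v).transpose) i.succ j.succ = PZ x (colZ v) (colR v) i j := by
  unfold PZ
  rw [Matrix.add_apply, LDL_apply, LDL_apply, Fin.sum_univ_succ]
  simp only [lM_succ_zero, lM_succ_succ, Matrix.smul_apply, Matrix.vecMulVec_apply, smul_eq_mul]
  ring

theorem Bm_succ {m : ℕ} (P : Matrix (Fin (m + 1)) (Fin (m + 1)) ℝ)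
    (Q : Matrix (Fin m) (Fin m) ℝ) (h : ∀ i j : Fin m, P i.succ j.succ = Q i j) (k : Fin m) :
    Bm P k.succ = Bm Q k := by
  unfold Bm
  let e : {i : Fin m // k ≤ i} ≃ {i : Fin (m + 1) // k.succ ≤ i} :=
    Equiv.ofBijective (fun i => ⟨i.1.succ, Fin.succ_le_succ_iff.mpr i.2⟩) (by
      constructor
      · rintro ⟨i, hi⟩ ⟨j, hj⟩ hij
        simp only [Subtype.mk.injEq, Fin.succ_inj] at hij
        exact Subtype.ext hij
      · rintro ⟨j, hj⟩
        obtain ⟨j', rfl⟩ : ∃ j' : Fin m, j = j'.succ :=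
          ⟨j.pred (Fin.pos_iff_ne_zero.mp (lt_of_lt_of_le (Fin.succ_pos k) hj)), by simp⟩
        exact ⟨⟨j', Fin.succ_le_succ_iff.mp hj⟩, rfl⟩)
  rw [← Matrix.det_submatrix_equiv_self e]
  congr 1
  ext i j
  exact h i.1 j.1

theorem det_lM {m : ℕ} (v : LIdx m → ℝ) : (lM v).det = 1 := by
  rw [Matrix.det_of_isLowerTriangular]
  · refine Finset.prod_eq_one fun i _ => ?_
    unfold lM
    rw [dif_neg (lt_irrefl i), if_pos rfl]
  · intro i j hij
    unfold lM
    have hij' : i < j := hij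
    rw [dif_neg (not_lt.mpr hij'.le), if_neg (ne_of_lt hij')]

theorem LDL_posDef {m : ℕ} (v : LIdx m → ℝ) (x : Fin m → ℝ) :
    (lM v * Dg x * (lM v).transpose).PosDef := by
  have hD : (Dg x).PosDef := Matrix.posDef_diagonal_iff.mpr fun i => Real.exp_pos _
  have hu : IsUnit (lM v) := by
    rw [Matrix.isUnit_iff_isUnit_det, det_lM]
    exact isUnit_one
  have := (Matrix.IsUnit.posDef_star_right_conjugate_iff hu (x := Dg x)).mpr hD
  simpa [Matrix.star_eq_conjTranspose] using this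

theorem t_split : S_SPLIT := by
  intro m
  have hfun : (fun v : LIdx (m + 1) → ℝ => (colZ v, colR v)) = splM m :=
    funext fun v => (splM_apply v).symm
  refine ⟨hfun ▸ splM_mp m, fun g => ?_, hfun ▸ (splM m).measurableEmbedding, fun x v k => ?_,
    fun x z v => ?_⟩
  · exact ⟨(splM m).symm g, by rw [← splM_apply]; exact (splM m).apply_symm_apply g⟩
  · exact Bm_succ _ _ (PZ_eq x v) k
  · unfold PZ
    refine (LDL_posDef v _).add_posSemidef ?_
    have h1 : (Matrix.vecMulVec z z).PosSemidef := by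
      have := Matrix.posSemidef_vecMulVec_self_star z
      simpa using this
    exact h1.smul (Real.exp_pos _).le

end Pool.Agent.W181.WH
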