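import Pool.Agent.W181.WH.Stm

/-!
# Project WH: UNIQ
-/

open MeasureTheory Filter Topology

namespace Pool.Agent.W181.WH

theorem t_uniq : S_UNIQ := by
  intro N F G hF hG h α hα
  set β : Fin (N + 1) → ℂ := fun i => (N : ℂ) / 2 - (i : ℕ) with hβ
  have hβs : ∑ i, β i = 0 := by
    simp only [hβ, Finset.sum_sub_distrib, Finset.sum_const, Finset.card_univ, Fintype.card_fin,
      nsmul_eq_mul]
    have h1 : (∑ i : Fin (N + 1), ((i : ℕ) : ℂ)) = ((∑ i ∈ Finset.range (N + 1), i : ℕ) : ℂ) := by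
      rw [Nat.cast_sum, ← Fin.sum_univ_eq_sum_range (fun k => ((k : ℕ) : ℂ))]
    have h2 : ((∑ i ∈ Finset.range (N + 1), i : ℕ) : ℂ) * 2 = ((N + 1 : ℕ) : ℂ) * (N : ℂ) := by
      have := Finset.sum_range_id_mul_two (N + 1)
      rw [show N + 1 - 1 = N by omega] at this
      exact_mod_cast this
    rw [h1]
    push_cast at h2 ⊢
    linear_combination -(1 / 2 : ℂ) * h2
  have hfa : ∀ H : (Fin (N + 1) → ℂ) → ℂ, Differentiable ℂ H →
      Differentiable ℂ (fun z : ℂ => H (β + z • (α - β))) := by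
    intro H hH
    exact hH.comp (by fun_prop)
  have hev : (fun z : ℂ => F (β + z • (α - β))) =ᶠ[𝓝 0] (fun z : ℂ => G (β + z • (α - β))) := by
    have h1 : ∀ i : Fin N, ∀ᶠ z : ℂ in 𝓝 0,
        0 < ((β + z • (α - β)) i.castSucc - (β + z • (α - β)) i.succ).re := by
      intro i
      have hc : Continuous (fun z : ℂ =>
          ((β + z • (α - β)) i.castSucc - (β + z • (α - β)) i.succ).re) := by
        simp only [Pi.add_apply, Pi.smul_apply, smul_eq_mul]
        fun_prop
      have h0 : 0 < ((β + (0 : ℂ) • (α - β)) i.castSucc - (β + (0 : ℂ) • (α - β)) i.succ).re := by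
        simp [hβ]
      exact hc.continuousAt.eventually (lt_mem_nhds h0)
    have h2 : ∀ᶠ z : ℂ in 𝓝 0, ∀ i : Fin N,
        0 < ((β + z • (α - β)) i.castSucc - (β + z • (α - β)) i.succ).re :=
      eventually_all.mpr h1
    filter_upwards [h2] with z hz
    refine h _ ?_ hz
    simp only [Pi.add_apply, Pi.smul_apply, smul_eq_mul, Pi.sub_apply, Finset.sum_add_distrib,
      ← Finset.mul_sum, Finset.sum_sub_distrib, hα, hβs]
    ring
  have hFG := AnalyticOnNhd.eq_of_eventuallyEq
    (fun z _ => (hfa F hF).analyticAt z) (fun z _ => (hfa G hG).analyticAt z) hev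
  have := congrFun hFG 1
  simpa using this

end Pool.Agent.W181.WH
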