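import Mathlib

/-!
# The objects of the problem MP_2f3d29_nt

`n = N + 1 ≥ 2`; rows, columns and the coordinates of `y`, `s`, `α` are numbered from `0`.
-/

open MeasureTheory

namespace Pool.Agent.W181.WH

/-- index set of the coordinates of an upper unipotent matrix -/
abbrev UIdx (n : ℕ) := {p : Fin n × Fin n // p.1 < p.2}

/-- the upper triangular unipotent matrix with coordinates `u` -/
def uMat {n : ℕ} (u : UIdx n → ℝ) : Matrix (Fin n) (Fin n) ℝ :=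
  fun i j => if h : i < j then u ⟨(i, j), h⟩ else if i = j then 1 else 0

/-- `ψ(u) = exp (2π i (u_{12} + u_{23} + ... ))` -/
noncomputable def psiU {n : ℕ} (u : UIdx n → ℝ) : ℂ :=
  Complex.exp (2 * Real.pi * Complex.I *
    ((∑ p : UIdx n, if (p.1.2 : ℕ) = (p.1.1 : ℕ) + 1 then u p else 0 : ℝ) : ℂ))

/-- the antidiagonal permutation matrix -/
def wLong (n : ℕ) : Matrix (Fin n) (Fin n) ℝ := fun i j => if j = Fin.rev i then 1 else 0

/-- `diag(y_1 ... y_{n-1}, y_1 ... y_{n-2}, ..., y_1, 1)` -/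
def dMat {N : ℕ} (y : Fin N → ℝ) : Matrix (Fin (N + 1)) (Fin (N + 1)) ℝ :=
  Matrix.diagonal (fun i => ∏ j : Fin N, if (j : ℕ) + (i : ℕ) < N then y j else 1)

/-- `g = x y k r` with `x` unipotent upper triangular, `y` positive, `k` orthogonal and `r ≠ 0` -/
def IsIwasawa {N : ℕ} (g : Matrix (Fin (N + 1)) (Fin (N + 1)) ℝ) (y : Fin N → ℝ) : Prop :=
  (∀ j, 0 < y j) ∧ ∃ x : UIdx (N + 1) → ℝ, ∃ k ∈ Matrix.orthogonalGroup (Fin (N + 1)) ℝ,
    ∃ r : ℝ, r ≠ 0 ∧ g = r • (uMat x * dMat y * k)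

open Classical in
/-- the coordinates `y_1, ..., y_{n-1}` of the Iwasawa decomposition -/
noncomputable def iwY {N : ℕ} (g : Matrix (Fin (N + 1)) (Fin (N + 1)) ℝ) : Fin N → ℝ :=
  if h : ∃ y, IsIwasawa g y then h.choose else fun _ => 1

/-- `ρ_i = (n+1)/2 - i`, `i` from `1` -/
noncomputable def rhoI {N : ℕ} (i : Fin (N + 1)) : ℝ := (N : ℝ) / 2 - (i : ℕ)

/-- `I(g, α) = ∏_j y_j ^ (α_1 + ... + α_{n-j} + ρ_1 + ... + ρ_{n-j})` -/
noncomputable def Ifun {N : ℕ} (g : Matrix (Fin (N + 1)) (Fin (N + 1)) ℝ)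
    (α : Fin (N + 1) → ℂ) : ℂ :=
  ∏ j : Fin N, ((iwY g j : ℝ) : ℂ) ^
    (∑ i : Fin (N + 1), if (i : ℕ) + (j : ℕ) < N then α i + ((rhoI i : ℝ) : ℂ) else 0)

/-- the integrand `I(w_long u g, α) conj ψ(u)` of Jacquet's integral -/
noncomputable def jacInt {N : ℕ} (g : Matrix (Fin (N + 1)) (Fin (N + 1)) ℝ)
    (α : Fin (N + 1) → ℂ) (u : UIdx (N + 1) → ℝ) : ℂ :=
  Ifun (wLong (N + 1) * uMat u * g) α * (starRingEnd ℂ) (psiU u)

/-- the completed Whittaker function on the cone of absolute convergence -/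
noncomputable def WCone {N : ℕ} (α : Fin (N + 1) → ℂ) (y : Fin N → ℝ) : ℂ :=
  (∏ j : Fin (N + 1), ∏ k : Fin (N + 1), if j < k then
      Complex.Gamma ((1 + α j - α k) / 2) / (Real.pi : ℂ) ^ ((1 + α j - α k) / 2) else 1) *
    ∫ u : UIdx (N + 1) → ℝ, jacInt (dMat y) α u

/-- `W` is the completed Whittaker function `W_{n,α}(y)`: on the cone it is given by Jacquet's
absolutely convergent integral, and for every `y` it is continued analytically to all `α` with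
`∑ α = 0`. -/
def IsWhittaker (N : ℕ) (W : (Fin (N + 1) → ℂ) → (Fin N → ℝ) → ℂ) : Prop :=
  (∀ α : Fin (N + 1) → ℂ, ∑ i, α i = 0 → (∀ i : Fin N, 0 < (α i.castSucc - α i.succ).re) →
    ∀ y : Fin N → ℝ, (∀ j, 0 < y j) → Integrable (jacInt (dMat y) α) ∧ W α y = WCone α y) ∧
  (∀ y : Fin N → ℝ, (∀ j, 0 < y j) → ∃ F : (Fin (N + 1) → ℂ) → ℂ, Differentiable ℂ F ∧
    ∀ α : Fin (N + 1) → ℂ, ∑ i, α i = 0 → W α y = F α)

/-- the integrand of the Mellin transform -/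
noncomputable def melI {N : ℕ} (W : (Fin (N + 1) → ℂ) → (Fin N → ℝ) → ℂ)
    (α : Fin (N + 1) → ℂ) (s : Fin N → ℂ) (y : Fin N → ℝ) : ℂ :=
  W (fun i => 2 * α i) y * ∏ j : Fin N, (((Real.pi * y j : ℝ) : ℂ) ^ (2 * s j) /
    ((y j : ℝ) : ℂ) ^ (1 + (((j : ℕ) + 1 : ℕ) : ℂ) * ((N - (j : ℕ) : ℕ) : ℂ) / 2))

/-- the normalized Mellin transform -/
noncomputable def mel {N : ℕ} (W : (Fin (N + 1) → ℂ) → (Fin N → ℝ) → ℂ)
    (α : Fin (N + 1) → ℂ) (s : Fin N → ℂ) : ℂ :=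
  2 ^ N * ∫ y in {y : Fin N → ℝ | ∀ j, 0 < y j}, melI W α s y

/-- absolute convergence of the Mellin integral -/
def MelConv {N : ℕ} (W : (Fin (N + 1) → ℂ) → (Fin N → ℝ) → ℂ)
    (α : Fin (N + 1) → ℂ) (s : Fin N → ℂ) : Prop :=
  IntegrableOn (melI W α s) {y : Fin N → ℝ | ∀ j, 0 < y j}

end Pool.Agent.W181.WH
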