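import Pool.Agent.W181.WH.Defs
import Pool.Agent.W181.WH.Prob

/-!
# Project WH (MP_2f3d29_nt, full answer): the statements of the subtasks

Every subtask is: prove the theorem `t_xxx : S_xxx` (or `S_yyy → S_xxx` when the text says that
`S_yyy` may be used) in a module of your own.

Paper proof in short.  The Whittaker function is, up to an explicit exponential, the Givental
function `Psi` (part C); `Psi` is an eigenfunction of the open Toda chain `Ach` (part B).  On the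
Mellin side `p_k = s_k - s_(k-1)` and multiplication by `π² y_j²` is the shift `T_j`.  Modulo the
operators containing `T_m` the chain of length `n` splits into two commuting chains, of lengths
`m` and `n - m`, and `s_m` is the first coefficient of the first one; hence the polynomial
`∏_J (s_m - α_J)`, written in `s_m` and the elementary symmetric functions of `α` (which are the
coefficients of the long chain), is zero modulo `T_m` (part A).  Part D passes to the Mellin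
transform by integrating against cut-off exponentials.
-/

open MeasureTheory

namespace Pool.Agent.W181.WH

/-! ## Part A (algebra) -/

/-- **COEF.** By induction on `l` (two steps), from the two recursions. -/
def S_COEF : Prop :=
  ∀ (B : Type) [Ring B] [Algebra ℂ B] (p T : ℕ → B) (z : ℂ) (l : ℕ),
    (∀ k, l < k → Dch p T l k = 0) ∧ Dch p T l 0 = 1 ∧
    Ach p T z l = ∑ k ∈ Finset.range (l + 1), ((-1) ^ k * z ^ (l - k) : ℂ) • Dch p T l k

/-- the commutation relations of a Toda chain -/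
def TodaRel {B : Type} [Ring B] (p T : ℕ → B) : Prop :=
  (∀ i j, Commute (p i) (p j)) ∧ (∀ i j, Commute (T i) (T j)) ∧
  (∀ i j, i ≠ j → i ≠ j + 1 → Commute (p i) (T j)) ∧
  (∀ j, T j * p j = (p j + 1) * T j) ∧ (∀ j, T j * p (j + 1) = (p (j + 1) - 1) * T j)

/-- **COMM.** Commutativity of the Toda Hamiltonians.  Write `A_l(z) = Ach p T z l`.
By induction on `l` prove for all complex `z, w` the two relations
`R1_l : A_l(z) A_l(w) = A_l(w) A_l(z)` and
`R2_l (l ≥ 1) : (z - w) (A_l(z) A_(l-1)(w) - A_(l-1)(w) A_l(z) + A_(l-1)(z) A_(l-1)(w))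
    = A_(l-1)(w) A_l(z) - A_(l-1)(z) A_l(w)`.
Tools: `p (l+1)` commutes with `A_l(z), A_(l-1)(z)`; `T l` commutes with `A_(l-1)(z)`;
`T l * A_l(z) = (A_l(z) - A_(l-1)(z)) * T l` (since `T l * p l = (p l + 1) * T l`);
`T l * p (l+1) = (p (l+1) - 1) * T l`.  Then insert
`A_(l+1)(z) = (z - p (l+1)) A_l(z) + T l * A_(l-1)(z)`.  (Check `l = 1`:
`A_1 = z - p 1`, `A_0 = 1`; `R2_2` reads, with `[A_2(z), A_1(w)] = -T 1`, correctly.)
The coefficients commute by COEF (two polynomials in central `z`, `w` that commute for all complex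
values have commuting coefficients: for instance take iterated Vandermonde combinations, or
work in `Polynomial`). `S_COEF` may be used. -/
def S_COMM : Prop :=
  ∀ (B : Type) [Ring B] [Algebra ℂ B] (p T : ℕ → B), TodaRel p T →
    ∀ (l k k' : ℕ), Commute (Dch p T l k) (Dch p T l k')

/-- **REL.** The relations for a `Rep`.  From `R.comm` with `S = Pi.single j 1`, `P = X i`, and
`R.τ_add` (commutativity of addition); for indices outside `1..N` everything is `0`.  The third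
item concerns the shifted chain. -/
def S_REL : Prop :=
  ∀ (N : ℕ) (B : Type) [Ring B] [Algebra ℂ B] (R : Rep N B), TodaRel R.p R.T ∧
    (∀ a, TodaRel (fun k => R.p (a + k)) (fun k => R.T (a + k))) ∧
    (∀ (m : Fin N) (S : Fin N → ℕ), R.τ S * R.θ (MvPolynomial.X m) =
      (R.θ (MvPolynomial.X m) + algebraMap ℂ B (S m : ℂ)) * R.τ S)

/-- **VMUL.** `(θ P τ S) (θ P' τ S') = θ (P * shiftP S P') τ (S + S')`, the total degree of
`shiftP S P'` is at most that of `P'`; then `Submodule.span_induction`. -/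
def S_VMUL : Prop :=
  ∀ (N : ℕ) (B : Type) [Ring B] [Algebra ℂ B] (R : Rep N B) (m : Fin N),
    (∀ δ w δ' w' b b', b ∈ R.V m δ w → b' ∈ R.V m δ' w' → b * b' ∈ R.V m (δ + δ') (w + w')) ∧
    (1 : B) ∈ R.V m 0 0 ∧
    (∀ δ w δ' w', δ' ≤ δ → w ≤ w' → R.V m δ w ≤ R.V m δ' w') ∧
    (∀ P : MvPolynomial (Fin N) ℂ, R.θ P ∈ R.V m 0 P.totalDegree) ∧
    (∀ k, R.p k ∈ R.V m 0 1) ∧ (∀ j, R.T j ∈ R.V m 0 2) ∧ R.T ((m : ℕ) + 1) ∈ R.V m 1 2

/-- **DEC** (uses `S_COEF`, `S_REL`, `S_VMUL`).  Decoupling modulo `T_m`.  Put `a = m + 1`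
(so that `s_a = X m`).  First the purely algebraic identity (induction on `l`, two steps)
`A_(a+l) = A''_l A_a + A'''_(l-1) T_a A_(a-1)`, where `A''` is the chain of `p (a + ·), T (a + ·)`
and `A'''` that of `p (a+1+·), T (a+1+·)`; compare coefficients.  It is simplest to prove the
statement on the level of the coefficients directly: `Dch (a + l) k - ∑ ...` is in `V m 1 k`, by
the recursion of `Dch` in `l`, all terms with `T_a` being in `V m 1 ·`.  The elements
`Dch p T a i` are polynomials in `p_1..p_a, T_1..T_(a-1)` and the other ones in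
`p_(a+1).., T_(a+1)..`; they commute because `p_(a+1) = s_(a+1) - s_a` and `s_a` commutes with all
`T_j`, `j ≠ a`.  Finally `Dch p T a 1 = p_1 + ... + p_a = s_a`. -/
def S_DEC : Prop :=
  ∀ (N : ℕ) (B : Type) [Ring B] [Algebra ℂ B] (R : Rep N B) (m : Fin N) (l : ℕ),
    (∀ k, Dch R.p R.T ((m : ℕ) + 1 + l) k -
        ∑ ij ∈ Finset.HasAntidiagonal.antidiagonal k, Dch R.p R.T ((m : ℕ) + 1) ij.1 *
          Dch (fun k => R.p ((m : ℕ) + 1 + k)) (fun k => R.T ((m : ℕ) + 1 + k)) l ij.2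
        ∈ R.V m 1 k) ∧
    (∀ i j, Commute (Dch R.p R.T ((m : ℕ) + 1) i)
      (Dch (fun k => R.p ((m : ℕ) + 1 + k)) (fun k => R.T ((m : ℕ) + 1 + k)) l j)) ∧
    Dch R.p R.T ((m : ℕ) + 1) 1 = R.θ (MvPolynomial.X m) ∧
    (∀ a k, Dch R.p R.T a k ∈ R.V m 0 k) ∧
    (∀ a k, Dch (fun k => R.p ((m : ℕ) + 1 + k)) (fun k => R.T ((m : ℕ) + 1 + k)) a k
      ∈ R.V m 0 k)

/-- elementary symmetric functions -/
def es {A : Type*} [CommRing A] {n : ℕ} (α : Fin n → A) (i : ℕ) : A :=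
  ∑ J ∈ Finset.powersetCard i (Finset.univ : Finset (Fin n)), ∏ j ∈ J, α j

/-- `g` (in the variables `z = X none` and `e_(i+1) = X (some i)`) expresses the product of the
`z - α_J`, `J` over the `k`-element subsets, by the elementary symmetric functions, and it has
weight at most `w` when `z` has weight `1` and `e_i` weight `i` -/
def IsG (n k : ℕ) (g : MvPolynomial (Option (Fin n)) ℂ) : Prop :=
  (∀ d ∈ g.support, d none + ∑ i : Fin n, ((i : ℕ) + 1) * d (some i) ≤ n.choose k) ∧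
  ∀ (A : Type) [CommRing A] [Algebra ℂ A] (z : A) (α : Fin n → A),
    MvPolynomial.aeval (fun o : Option (Fin n) => o.elim z (fun i => es α ((i : ℕ) + 1))) g =
      ∏ J ∈ Finset.powersetCard k (Finset.univ : Finset (Fin n)), (z - ∑ j ∈ J, α j)

/-- **SYM.** The product is a polynomial in `z` whose coefficients are symmetric polynomials in
`α`, so it is a polynomial in `z` and the elementary symmetric polynomials
(`MvPolynomial.esymmAlgEquiv`, applied over `ℂ` to the coefficients of the powers of `z`; or over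
the base ring `ℂ[z]`).  Degrees: the product is homogeneous of degree `n.choose k` in `(z, α)`;
replace a preimage by its weighted homogeneous component of weight `n.choose k` (weights `1` and
`i + 1`): the substitution maps the weighted homogeneous component of weight `d` to the homogeneous
component of degree `d`.  The identity for general `A` follows from the one in
`MvPolynomial (Option (Fin n)) ℂ` by `aeval`. -/
def S_SYM : Prop := ∀ n k : ℕ, ∃ g : MvPolynomial (Option (Fin n)) ℂ, IsG n k g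

/-- **VAN.** The key vanishing.  In `R = ℂ[β_1..β_k, γ_1..γ_l]` with `c i = e_i(β)`,
`d j = e_j(γ)`, one has `∑_(a+b=i+1) c_a d_b = e_(i+1)(β, γ)`, so by `IsG` the value is
`∏_J (e_1(β) - (β,γ)_J)`, which has the factor `J = {β_1..β_k}` equal to `0`.  The map from the
polynomial ring in `c_1..c_k, d_1..d_l` to `R` given by `c_i ↦ e_i(β)`, `d_j ↦ e_j(γ)` is
injective (algebraic independence of the elementary symmetric polynomials, twice:
`MvPolynomial.esymmAlgHom` injective, and over the base ring `ℂ[γ]`; or use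
`algebraicIndependent`); hence the value is `0` in that polynomial ring, hence in every `A`. -/
def S_VAN : Prop :=
  ∀ (k l : ℕ) (g : MvPolynomial (Option (Fin (k + l))) ℂ), 1 ≤ k → IsG (k + l) k g →
    ∀ (A : Type) [CommRing A] [Algebra ℂ A] (c d : ℕ → A), c 0 = 1 → d 0 = 1 →
      (∀ i, k < i → c i = 0) → (∀ j, l < j → d j = 0) →
      MvPolynomial.aeval (fun o : Option (Fin (k + l)) => o.elim (c 1)
        (fun i => ∑ ab ∈ Finset.HasAntidiagonal.antidiagonal ((i : ℕ) + 1), c ab.1 * d ab.2)) g = 0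

/-- ordered evaluation in a noncommutative algebra: powers of `z` to the left, then the `D i` in
their order -/
noncomputable def evalN {B : Type} [Ring B] [Algebra ℂ B] {n : ℕ} (z : B) (D : Fin n → B)
    (g : MvPolynomial (Option (Fin n)) ℂ) : B :=
  ∑ d ∈ g.support, (g.coeff d) • (z ^ (d none) * (List.ofFn (fun i => D i ^ (d (some i)))).prod)

/-- **ONE** (uses `S_COEF, S_COMM, S_REL, S_VMUL, S_DEC, S_VAN`).  The case `δ = 1`.
Let `D_k = Dch R.p R.T (N+1) k` and `D⁰_k = ∑_(i+j=k) D'_i D''_j` as in `S_DEC` with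
`l = N - m`.  All monomials of weight `≤ w`: replacing `D` by `D⁰` changes
`evalN (θ X_m) D g` only by an element of `V m 1 w` (telescoping and `S_VMUL`: `D_k ∈ V m 0 k`,
`D⁰_k ∈ V m 0 k`, `D_k - D⁰_k ∈ V m 1 k`).  The elements `θ X_m = D'_1, D'_i, D''_j` all commute
(`S_COMM` for the two chains, `S_DEC`), so they lie in a commutative subalgebra
(`Algebra.adjoin` of a commuting set, `Algebra.adjoinCommRingOfComm`), and there
`evalN (θ X_m) D⁰ g = 0` by `S_VAN` with `c = D'`, `d = D''` (`D'_i = 0` for `i > m + 1`,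
`D''_j = 0` for `j > l` by `S_COEF`). -/
def S_ONE : Prop :=
  ∀ (N : ℕ) (B : Type) [Ring B] [Algebra ℂ B] (R : Rep N B) (m : Fin N)
    (g : MvPolynomial (Option (Fin (N + 1))) ℂ), IsG (N + 1) ((m : ℕ) + 1) g →
    evalN (R.θ (MvPolynomial.X m)) (fun i : Fin (N + 1) => Dch R.p R.T (N + 1) ((i : ℕ) + 1)) g
      ∈ R.V m 1 ((N + 1).choose ((m : ℕ) + 1))

/-- `g` with `z` replaced by `z + i` -/
noncomputable def shZ {n : ℕ} (g : MvPolynomial (Option (Fin n)) ℂ) (i : ℕ) :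
    MvPolynomial (Option (Fin n)) ℂ :=
  MvPolynomial.aeval (fun o : Option (Fin n) => o.elim
    (MvPolynomial.X none + MvPolynomial.C (i : ℂ)) (fun j => MvPolynomial.X (some j))) g

/-- **DEL** (uses `S_ONE, S_COEF, S_COMM, S_REL, S_VMUL`; prove
`S_ONE → S_COEF → S_COMM → S_REL → S_VMUL → S_DEL` or with these as hypotheses in any order).
Induction on `δ`.  Let `G_δ = ∏_(i<δ) shZ g i`.  As the `D_k` commute with each other and `z` is
put to the left,
`evalN z D (G_δ * h) = ∑_k z^k (evalN z D G_δ) h_k(D)` for `h = ∑_k z^k h_k(e)`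
(more precisely: `evalN` of a product `z^k M(e) * g'` is `z^k * evalN g' * M(D)`).
Take `h = shZ g δ`.  By induction `evalN G_δ` is a combination of operators `θ P τ S` with
`S m ≥ δ` and weight `≤ δ w`.  For such an operator
`∑_k (θ X_m + δ)^k θ P τ S g_k(D) = θ P τ S ∑_k (θ X_m + δ - S m)^k g_k(D)`
(third item of `S_REL`).  If `S m = δ` the last sum is `evalN (θ X_m) D g ∈ V m 1 w`
(`S_ONE`); if `S m > δ` it is in `V m 0 w` (weights); now `S_VMUL`. -/
def S_DEL : Prop :=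
  ∀ (N : ℕ) (B : Type) [Ring B] [Algebra ℂ B] (R : Rep N B) (m : Fin N)
    (g : MvPolynomial (Option (Fin (N + 1))) ℂ), IsG (N + 1) ((m : ℕ) + 1) g → ∀ δ : ℕ,
    evalN (R.θ (MvPolynomial.X m)) (fun i : Fin (N + 1) => Dch R.p R.T (N + 1) ((i : ℕ) + 1))
      (∏ i ∈ Finset.range δ, shZ g i) ∈ R.V m δ (δ * (N + 1).choose ((m : ℕ) + 1))

/-- **ALG** (uses `S_DEL, S_SYM, S_COEF`).  (1) From `A(z) F = ∏ (z - α_j) F` for all `z` and
`S_COEF` (Vieta, comparison of coefficients of a polynomial identity with values in the vector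
space `M`) get `Dch .. (N+1) (i+1) F = es α (i+1) • F`.  (2) So
`evalN (θ X_m) D G_δ F = θ (prodJ m (m+1) δ α) F` (use `IsG` with `A = MvPolynomial (Fin N) ℂ`,
`z = X m + i`, `α = C α_j`; `θ` is an algebra homomorphism).  (3) An element of the span is a
finite sum of `θ P τ S` with `deg P + 2|S| ≤ w := δ * choose`, `S m ≥ δ` (put the scalars into
`P`).  (4) Exact degree: for one such pair put `E = X_m^(w - 2|S|)` and replace `P` by the two
polynomials `P + c E` and `- c E`, `c ≠ 0` chosen such that the coefficient of that monomial in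
`P + c E` is not `0`.  Zero summands: if the list is empty use `S = δ e_m` (then
`2 δ ≤ δ * choose` since `choose ≥ 2`), `E` and `-E`. For `δ = 0` the exact degree is `0`. -/
def S_ALG : Prop :=
  ∀ (N : ℕ) (M : Type) [AddCommGroup M] [Module ℂ M] (R : Rep N (Module.End ℂ M)) (m : Fin N)
    (δ : ℕ), ∃ (r : ℕ) (P : Fin r → MvPolynomial (Fin N) ℂ) (S : Fin r → Fin N → ℕ), 1 ≤ r ∧
    (∀ i, P i ≠ 0 ∧
      (P i).totalDegree + 2 * ∑ j, S i j = δ * (N + 1).choose ((m : ℕ) + 1)) ∧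
    (∀ i, δ ≤ S i m) ∧
    ∀ (F : M) (α : Fin (N + 1) → ℂ),
      (∀ z : ℂ, Ach R.p R.T z (N + 1) F = (∏ j, (z - α j)) • F) →
      R.θ (prodJ m ((m : ℕ) + 1) δ α) F = ∑ i, R.θ (P i) (R.τ (S i) F)

/-! ## Part B (the Givental functions are Toda eigenfunctions) -/

/-- the properties of the representation on smooth functions of `ξ ∈ ℝ^N` -/
def IsRepXi (N : ℕ) (R : Rep N (Module.End ℂ (Sm N))) : Prop :=
  (∀ j : Fin N, R.θ (MvPolynomial.X j) = (-(1 / 2) : ℂ) • pdL j) ∧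
  (∀ (S : Fin N → ℕ) (F : Sm N) (ξ : Fin N → ℝ), (R.τ S F).1 ξ =
    (∏ j, ((Real.pi ^ 2 * Real.exp (2 * ξ j) : ℝ) : ℂ) ^ (S j)) * F.1 ξ)

/-- **REP.** Existence of the representation: the `pdL j` commute (symmetry of second
derivatives), so there is an algebra homomorphism `θ` from `MvPolynomial` with `X j ↦ -½ pdL j`
(through the commutative subalgebra `Algebra.adjoin ℂ (Set.range _)`,
`Algebra.adjoinCommRingOfComm`, `MvPolynomial.aeval`); `τ S` is multiplication by the given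
function (`mulL`); `comm` for `P = X j` is the product rule, in general by
`MvPolynomial.induction_on`. -/
def S_REP : Prop := ∀ N : ℕ, ∃ R : Rep N (Module.End ℂ (Sm N)), IsRepXi N R

/-- **KKI.** Integrability and growth.  `|f(ρ,σ)| ≤ C ∏_k (1 + ρ_k)^d (1 + σ_k)^d` and
`(1+u)^d e^(-u) ≤ C' e^(-u/2)`, so it is enough to bound
`∏_k ∫ exp (b |t|) exp (-(π/2)(exp (2(x_(k+1) - t)) + exp (2 (t - x_k)))) dt`.  As
`exp (b|t|) ≤ exp (b t) + exp (-b t)` (`b > 0`), and
`∫ exp (b t) exp (-(π/2) exp (2(t - x_k))) dt = exp (b x_k) ∫ exp (b u) exp(-(π/2) exp (2u)) du`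
(finite), `∫ exp (-b t) exp (-(π/2) exp (2 (x_(k+1) - t))) dt = exp (-b x_(k+1)) ·` (the same
constant), each factor is `≤ C exp (b |x_k| + b |x_(k+1)|)`.  Continuity in `t` gives
measurability.  (Products of one dimensional integrable functions: `Integrable.fintype_prod`,
`integral_fintype_prod_eq_prod`.) -/
def S_KKI : Prop :=
  ∀ (n : ℕ) (a : ℂ) (H : (Fin n → ℝ) → ℂ) (f : MvPolynomial (Fin n ⊕ Fin n) ℂ),
    Continuous H → ExpGr H →
    (∀ x, Integrable (fun t : Fin n → ℝ => MvPolynomial.eval (rs x t) f * Qk (2 * a) x t * H t)) ∧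
    ExpGr (KK a H f)

/-- **KKI2.** The bound of KKI, locally uniform in `x`: for `x` in a bounded set there is one
integrable dominating function (same proof: for `|x_i| ≤ M` the kernel is
`≤ exp (-(π/2) ∑ (exp (2 (-M - t_k)) + exp (2 (t_k - M))))` times constants). -/
def S_KKI2 : Prop :=
  ∀ (n : ℕ) (a : ℂ) (H : (Fin n → ℝ) → ℂ) (f : MvPolynomial (Fin n ⊕ Fin n) ℂ),
    Continuous H → ExpGr H → ∀ M : ℝ, ∃ g : (Fin n → ℝ) → ℝ, Integrable g ∧
    ∀ x : Fin (n + 1) → ℝ, (∀ i, |x i| ≤ M) → ∀ t,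
      ‖MvPolynomial.eval (rs x t) f * Qk (2 * a) x t * H t‖ ≤ g t

/-- **KKD** (uses `S_KKI`, `S_KKI2`).  Differentiation under the integral sign
(`hasFDerivAt_integral_of_dominated_of_fderiv_le`): the derivative in `x_k` of
`eval (rs x t) f * Qk (2a) x t` is `2 * eval (rs x t) (dX a k f) * Qk (2a) x t`
(`½ ∂/∂x_k` maps `Q_2a` to `(a - ρ_k + σ_(k+1)) Q_2a` in the notation `rho n k`, `sig n (k+1)`,
`ρ ↦ ρ` for `ρ = X (inl (k-1))`, and `σ ↦ -σ` for `σ = X (inr k)`).  So every `KK a H f` is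
differentiable with partial derivatives of the same form; hence all are `C^k` for every `k`
(induction, `contDiff_succ_iff_fderiv`), and all iterated partial derivatives have exponential
growth by `S_KKI`. -/
def S_KKD : Prop :=
  ∀ (n : ℕ) (a : ℂ) (H : (Fin n → ℝ) → ℂ), Continuous H → ExpGr H →
    ∀ f : MvPolynomial (Fin n ⊕ Fin n) ℂ, Good (KK a H f) ∧
      ∀ (k : Fin (n + 1)) (x : Fin (n + 1) → ℝ), pd k (KK a H f) x = 2 * KK a H (dX a k f) x

/-- **IBP** (uses `S_KKI`).  Integration by parts in `t_k`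
(`integral_mul_fderiv_eq_neg_fderiv_mul_of_integrable` or the line-derivative version); the
derivative `-½ ∂/∂t_k` of `eval (rs x t) f * Qk (2a) x t` is
`eval (rs x t) (dT a k f) * Qk (2a) x t`. -/
def S_IBP : Prop :=
  ∀ (n : ℕ) (a : ℂ) (k : Fin n) (H : (Fin n → ℝ) → ℂ) (f : MvPolynomial (Fin n ⊕ Fin n) ℂ),
    ContDiff ℝ 1 H → ExpGr H → ExpGr (pd k H) → ∀ x,
      (1 / 2 : ℂ) * KK a (pd k H) f x = KK a H (dT a k f) x

/-- **CONT.** A commutative identity.  Put `μ = z - a`,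
`a_l = Ach (fun k => C a - ρ_(k-1) + σ_k) (fun k => ρ_k σ_k) z l`,
`b_l = Ach (fun k => C a - ρ_k + σ_k) (fun k => σ_(k+1) ρ_k) z l`
(`ρ_0 = 0`, `σ_(n+1) = 0`, `ρ_(n+1) = 0`).  Prove by induction on `l`:
`a_l + σ_l a_(l-1) = μ b_(l-1)` and `a_l = b_l - ρ_l b_(l-1)` for `1 ≤ l ≤ n`; then
`a_(n+1) = (μ + ρ_n - σ_(n+1)) a_n + ρ_n σ_n a_(n-1) = μ (a_n + ρ_n b_(n-1)) = μ b_n`. -/
def S_CONT : Prop :=
  ∀ (n : ℕ) (a z : ℂ),
    Ach (fun k => MvPolynomial.C a - rho n (k - 1) + sig n k) (fun k => rho n k * sig n k) z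
        (n + 1) =
      MvPolynomial.C (z - a) *
      Ach (fun k => MvPolynomial.C a - rho n k + sig n k) (fun k => sig n (k + 1) * rho n k) z n

/-- **STEP** (uses `S_KKI, S_KKD, S_IBP, S_CONT`).  (1) For `l ≤ n + 1`,
`Ach (pX (n+1)) (TX (n+1)) z l` applied to `KK a H 1` is `KK a H (a_l)`, `a_l` as in `S_CONT`:
induction on `l`, using `pd (l-1) (KK a H f) = 2 KK a H (dX a (l-1) f)`, the fact that `a_(l-1)`
does not contain `ρ_(l-1), σ_l` (its partial derivatives in these variables vanish), and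
`TX k (KK a H f) = KK a H (ρ_k σ_k f)` (`ρ_k σ_k = π² exp (2 (x_(k+1) - x_k))`).
(2) For `l ≤ n` and every `f` not containing `ρ_j, σ_j` with `j ≤ l`,
`KK a (Ach (pX n) (TX n) z l H) f = KK a H (b_l f)`: induction on `l`, peeling the last factor:
`KK a ((z - p_l) H') f = KK a H' ((z - (a - ρ_l + σ_l)) f)` by `S_IBP` (derivative terms vanish),
`TX (l-1)` on `H'` is multiplication by `π² exp (2 (t_l - t_(l-1))) = σ_l ρ_(l-1)`.
(3) `a_(n+1) = (z - a) b_n` and `Ach .. n H = c H`. -/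
def S_STEP : Prop :=
  ∀ (n : ℕ) (a z c : ℂ) (H : (Fin n → ℝ) → ℂ) (hH : Good H),
    Ach (pX n) (TX n) z n (⟨H, hH.1⟩ : Sm n) = c • (⟨H, hH.1⟩ : Sm n) →
    ∃ hG : Good (KK a H 1),
      Ach (pX (n + 1)) (TX (n + 1)) z (n + 1) (⟨KK a H 1, hG.1⟩ : Sm (n + 1)) =
        ((z - a) * c) • (⟨KK a H 1, hG.1⟩ : Sm (n + 1))

/-- **EIGX** (uses `S_STEP`).  Induction on `n`:
`Psi (n+1) (2α) = KK (α 0) (Psi n (2 (tl α))) 1`. -/
def S_EIGX : Prop :=
  ∀ (n : ℕ) (α : Fin n → ℂ), ∃ hG : Good (Psi n (fun i => 2 * α i)), ∀ z : ℂ,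
    Ach (pX n) (TX n) z n (⟨Psi n (fun i => 2 * α i), hG.1⟩ : Sm n) =
      (∏ j, (z - α j)) • (⟨Psi n (fun i => 2 * α i), hG.1⟩ : Sm n)

/-- **TRANS.** Translation: induction on `n`, substitute `t ↦ t + c`. -/
def S_TRANS : Prop :=
  ∀ (n : ℕ) (α : Fin n → ℂ) (x : Fin n → ℝ) (c : ℝ),
    Psi n α (fun i => x i + c) = Complex.exp ((c : ℂ) * ∑ i, α i) * Psi n α x

/-- **DUAL.** Induction on `n`, substitute `t_i ↦ -t_(rev i)` (measure preserving). -/
def S_DUAL : Prop :=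
  ∀ (n : ℕ) (α : Fin n → ℂ) (x : Fin n → ℝ),
    Psi n α (fun i => -x (Fin.rev i)) = Psi n (fun i => -α i) x

/-- **XI** (chain rule).  For `F` smooth on `ℝ^N` and `G(x) = F(ξ(x))`, `ξ_j = x_(j+1) - x_j`:
`pX k G = (p_k F) ∘ ξ` with `p_k = s_k - s_(k-1) = -½ ∂_(ξ_k) + ½ ∂_(ξ_(k-1))` (indices from `1`)
and `TX k G = (T_k F) ∘ ξ`; then induction along the recursion of `Ach` (for `l ≤ N + 1`). -/
def S_XI : Prop :=
  ∀ (N : ℕ) (R : Rep N (Module.End ℂ (Sm N))), IsRepXi N R → ∀ (F : Sm N)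
    (hG : ContDiff ℝ (⊤ : ℕ∞) (fun x : Fin (N + 1) → ℝ => F.1 (xiOf x))) (z : ℂ)
    (x : Fin (N + 1) → ℝ),
    (Ach (pX (N + 1)) (TX (N + 1)) z (N + 1)
      (⟨fun x : Fin (N + 1) → ℝ => F.1 (xiOf x), hG⟩ : Sm (N + 1))).1 x =
    (Ach R.p R.T z (N + 1) F).1 (xiOf x)

/-- **HOLI.** Holomorphic dependence on parameters: a function of several complex variables which
is an integral of entire functions with a locally uniform integrable bound is entire.  Proof:
`hasFDerivAt_integral_of_dominated_of_fderiv_le`; the derivative is bounded by Cauchy's estimate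
on lines (`Complex.norm_deriv_le_of_forall_mem_sphere_norm_le`), its measurability follows since
it is a limit of difference quotients (or show first that the integral is continuous and
holomorphic on each line, etc.). -/
def S_HOLI : Prop :=
  ∀ (n k : ℕ) (F : (Fin n → ℂ) → (Fin k → ℝ) → ℂ), (∀ t, Differentiable ℂ (fun α => F α t)) →
    (∀ α, Continuous (F α)) →
    (∀ r : ℝ, ∃ g : (Fin k → ℝ) → ℝ, Integrable g ∧ ∀ α t, ‖α‖ ≤ r → ‖F α t‖ ≤ g t) →
    Differentiable ℂ (fun α => ∫ t, F α t)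

/-- **HOL** (uses `S_HOLI`, `S_KKD`).  `Psi n α x` is entire in `α`.  Prove by induction on `n`,
together with: for every `r` there are `C, b` with `‖Psi n α x‖ ≤ C exp (b ∑ |x_i|)` for all
`‖α‖ ≤ r` and all `x` (the one dimensional integrals of `S_KKI`); continuity in `x` is
from `S_KKD` (`Psi (n+1) α = KK (α 0 / 2) (Psi n (tl α)) 1`). -/
def S_HOL : Prop := ∀ (n : ℕ) (x : Fin n → ℝ), Differentiable ℂ (fun α => Psi n α x)

/-! ## Part C (the Jacquet integral is a Givental function) -/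

/-- coordinates of `lM u * lM v` -/
def mulC {m : ℕ} (u v : LIdx m → ℝ) : LIdx m → ℝ := fun p => (lM u * lM v) p.1.1 p.1.2

/-- coordinates of the inverse of `lM u` -/
noncomputable def invC {m : ℕ} (u : LIdx m → ℝ) : LIdx m → ℝ := fun p => (lM u)⁻¹ p.1.1 p.1.2

/-- **UNI.** Unipotent group.  Left and right translations are affine maps of the coordinates
whose linear part is unitriangular (in a suitable order of the coordinates), so of determinant
`1`; likewise `z ↦ lM u z`.  (For the right translation: row `i` of the coordinates is multiplied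
by a unipotent matrix from the right.  One may also use transvections: `lM u` is a product of
elementary matrices and for an elementary matrix each map is a shear; or induction on `m` by
splitting off the first column.) -/
def S_UNI : Prop :=
  ∀ (m : ℕ),
    (∀ u v : LIdx m → ℝ, lM (mulC u v) = lM u * lM v ∧ ch (mulC u v) = ch u * ch v) ∧
    (∀ u : LIdx m → ℝ, lM (invC u) * lM u = 1 ∧ lM u * lM (invC u) = 1) ∧
    Continuous (invC : (LIdx m → ℝ) → (LIdx m → ℝ)) ∧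
    (∀ u : LIdx m → ℝ, MeasurePreserving (fun v => mulC u v) volume volume) ∧
    (∀ u : LIdx m → ℝ, MeasurePreserving (fun v => mulC v u) volume volume) ∧
    (∀ u : LIdx m → ℝ, MeasurePreserving (fun z : Fin m → ℝ => (lM u).mulVec z) volume volume)

/-- **EXCH.** Both measures are `2^(-m)` times Lebesgue measure (on the coordinates `M_ij`,
`i ≤ j`) on positive definite matrices with density `(det M)^(-1/2)`.  Proof for `wU` by induction
on `m` splitting off the first row and column: `M = (a, b, C)` is positive definite iff `a > 0` and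
`C - b bᵀ/a` is; substitute `C ↦ C + b bᵀ/a` (translation), `b = a v` (`db = a^(m-1) dv`),
`a = s²` (`da = 2 s ds`).  For `wL` conjugate with the reversal of the indices, which permutes the
coordinates `M_ij` and turns `ML` into `MU` (`t_i ↦ s_(rev i)`, coordinates
`(i,j) ↦ (rev j, rev i)`).  (Any other proof is welcome; both measures are determined by lintegrals
of nonnegative functions.) -/
def S_EXCH : Prop :=
  ∀ m : ℕ, Measure.map (fun q => (fun i j => MU q i j : Fin m → Fin m → ℝ)) (wU m) =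
    Measure.map (fun q => (fun i j => ML q i j : Fin m → Fin m → ℝ)) (wL m)

/-- **CHOL.** Cholesky decomposition from the lower right corner (induction, or `LDL` of Mathlib
conjugated with the reversal of the indices) and the principal minors. -/
def S_CHOL : Prop :=
  ∀ m : ℕ,
    (∀ P : Matrix (Fin m) (Fin m) ℝ, P.PosDef → ∃ q : (Fin m → ℝ) × (LIdx m → ℝ),
      (∀ i, 0 < q.1 i) ∧ P = ML q) ∧
    (∀ q : (Fin m → ℝ) × (LIdx m → ℝ), (∀ i, 0 < q.1 i) → (ML q).PosDef ∧ (MU q).PosDef) ∧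
    (∀ (q : (Fin m → ℝ) × (LIdx m → ℝ)) (k : Fin m),
      Bm (ML q) k = ∏ i ∈ Finset.Ici k, q.1 i ^ 2 ∧ Um (MU q) k = ∏ i ∈ Finset.Iic k, q.1 i ^ 2)

/-- **KEY** (uses `S_UNI`, `S_CHOL`).  Gamma integral of the cone.  Write `P = ML (d, a)`
(`P = Aᵀ D² A`, `A = lM a`).  `tr (MU (s,v) P) = ∑_i s_i² (LᵀPL)_ii` with `L = lM v`, and
`LᵀPL = (A L)ᵀ D² (A L)`; substitute `v ↦ a⁻¹ v` (left translation): then
`tr = ∑_i s_i² (d_i² + ∑_(j>i) v_ji² d_j²)`.  The `v` integral is Gaussian: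
`∏_(j>i) (s_i d_j)⁻¹`.  With the weight `s_i^(2(m-1-i))` and
`∏_j Um^(be μ j) = ∏_i s_i^(∑_(k≤i) μ_k - m)` there remains
`∏_i ∫ s^(∑_(k≤i) μ_k - m + (m-1-i)) exp (-π s² d_i²) ds = ∏_i ½ GR(a_i) d_i^(-a_i)`,
`a_i = ∑_(k≤i) μ_k - i = 1 + ∑_(k≤i) (μ_k - 1)` (real part `> 0`).  Total exponent of `d_i`:
`-i - a_i = -∑_(k≤i) μ_k`, which is `∏_k (Bm P k)^(-μ_k/2)`. -/
def S_KEY : Prop :=
  ∀ (m : ℕ) (μ : Fin m → ℂ), (∀ k, 1 < (μ k).re) → ∀ P : Matrix (Fin m) (Fin m) ℝ, P.PosDef →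
    Integrable (fun q : (Fin m → ℝ) × (LIdx m → ℝ) =>
      ((Real.exp (-Real.pi * (MU q * P).trace) : ℝ) : ℂ) *
        ∏ j, ((Um (MU q) j : ℝ) : ℂ) ^ (be μ j)) (wU m) ∧
    ∫ q, ((Real.exp (-Real.pi * (MU q * P).trace) : ℝ) : ℂ) *
        ∏ j, ((Um (MU q) j : ℝ) : ℂ) ^ (be μ j) ∂(wU m) =
      cmu μ * ∏ k, ((Bm P k : ℝ) : ℂ) ^ (-(μ k) / 2)

/-- **ZINT** (uses `S_UNI`).  Substitute `z ↦ (lM w)⁻¹ z` (keeps `z_0`), then one dimensional
Gaussian integrals (`fourierIntegral_gaussian`, `integral_gaussian`). -/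
def S_ZINT : Prop :=
  ∀ (m : ℕ) (D : ℝ) (t : Fin (m + 1) → ℝ) (w : LIdx (m + 1) → ℝ), 0 < D → (∀ i, 0 < t i) →
    Integrable (fun z : Fin (m + 1) → ℝ =>
      Real.exp (-Real.pi * (D * ∑ i, (t i * (lM w).mulVec z i) ^ 2))) ∧
    ∫ z : Fin (m + 1) → ℝ, Real.exp (-Real.pi * (D * ∑ i, (t i * (lM w).mulVec z i) ^ 2)) =
      (∏ i, (t i * Real.sqrt D)⁻¹) ∧
    ∫ z : Fin (m + 1) → ℝ,
      ((Real.exp (-Real.pi * (D * ∑ i, (t i * (lM w).mulVec z i) ^ 2)) : ℝ) : ℂ) *
        Complex.exp (-(2 * Real.pi * Complex.I) * (z 0 : ℂ)) =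
      ((((∏ i, (t i * Real.sqrt D)⁻¹) * Real.exp (-Real.pi / (t 0 ^ 2 * D))) : ℝ) : ℂ)

/-- **WINT.** `tr (ML (t,w) diag(e^(2x))) = ∑_i t_i² (e^(2x_i) + ∑_(j<i) w_ij² e^(2x_j))`, a
product of one dimensional Gaussian integrals over the coordinates `w_ij`, of which those with
`i = j + 1` carry the character. -/
def S_WINT : Prop :=
  ∀ (m : ℕ) (t x : Fin m → ℝ), (∀ i, 0 < t i) →
    Integrable (fun w : LIdx m → ℝ => Real.exp (-Real.pi * (ML (t, w) * Dg x).trace)) ∧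
    ∫ w : LIdx m → ℝ, Real.exp (-Real.pi * (ML (t, w) * Dg x).trace) =
      (∏ i, Real.exp (-Real.pi * (t i ^ 2 * Real.exp (2 * x i)))) *
        ∏ p : LIdx m, (t p.1.1 * Real.exp (x p.1.2))⁻¹ ∧
    ∫ w : LIdx m → ℝ, ((Real.exp (-Real.pi * (ML (t, w) * Dg x).trace) : ℝ) : ℂ) * ch w =
      ((((∏ i, Real.exp (-Real.pi * (t i ^ 2 * Real.exp (2 * x i)))) *
        ∏ p : LIdx m, (t p.1.1 * Real.exp (x p.1.2))⁻¹ *
          (if (p.1.1 : ℕ) = (p.1.2 : ℕ) + 1 then
            Real.exp (-Real.pi / (t p.1.1 ^ 2 * Real.exp (2 * x p.1.2))) else 1)) : ℝ) : ℂ)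

/-- first column (below the diagonal) -/
def colZ {m : ℕ} (v : LIdx (m + 1) → ℝ) : Fin m → ℝ := fun i => v ⟨(i.succ, 0), Fin.succ_pos i⟩

/-- the other columns -/
def colR {m : ℕ} (v : LIdx (m + 1) → ℝ) : LIdx m → ℝ :=
  fun p => v ⟨(p.1.1.succ, p.1.2.succ), Fin.succ_lt_succ_iff.mpr p.2⟩

/-- the positive definite matrix `l diag(e^(2x')) lᵀ + e^(2x_0) z zᵀ` -/
noncomputable def PZ {m : ℕ} (x : Fin (m + 1) → ℝ) (z : Fin m → ℝ) (v : LIdx m → ℝ) :
    Matrix (Fin m) (Fin m) ℝ :=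
  lM v * Dg (fun i => x i.succ) * (lM v).transpose +
    Real.exp (2 * x 0) • Matrix.vecMulVec z z

/-- **SPLIT.** Splitting off the first column: `lM v = [[1, 0], [z, l']]`. -/
def S_SPLIT : Prop :=
  ∀ m : ℕ,
    MeasurePreserving (fun v : LIdx (m + 1) → ℝ => (colZ v, colR v)) volume
      (volume.prod volume) ∧
    (∀ (g : (Fin m → ℝ) × (LIdx m → ℝ)), ∃ v : LIdx (m + 1) → ℝ, (colZ v, colR v) = g) ∧
    MeasurableEmbedding (fun v : LIdx (m + 1) → ℝ => (colZ v, colR v)) ∧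
    (∀ (x : Fin (m + 1) → ℝ) (v : LIdx (m + 1) → ℝ) (k : Fin m),
      Bm (lM v * Dg x * (lM v).transpose) k.succ = Bm (PZ x (colZ v) (colR v)) k) ∧
    (∀ (x : Fin (m + 1) → ℝ) (z : Fin m → ℝ) (v : LIdx m → ℝ), (PZ x z v).PosDef)

/-- **SPLITC.** The character under the splitting. -/
def S_SPLITC : Prop :=
  ∀ (m : ℕ) (v : LIdx (m + 2) → ℝ),
    ch v = Complex.exp (-(2 * Real.pi * Complex.I) * (colZ v 0 : ℂ)) * ch (colR v)

/-- **FLIP.** Reverse the indices: with `ℓ_ij = w_(rev j, rev i)` (a permutation of the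
coordinates) the reversal of `wᵀ diag(t²) w` is `ℓ diag(t²_rev) ℓᵀ`, so
`Um (ML (t,w)) j = Bm (lM ℓ * diag * (lM ℓ)ᵀ) (rev j)`.  For `j = m` (the last) this is
`∏ t_i²`.  The conjugate character is removed by `ℓ_ij ↦ (-1)^(i-j) ℓ_ij` (conjugation by a
diagonal sign matrix, the minors `Bm` do not change). -/
def S_FLIP : Prop :=
  ∀ (m : ℕ) (μ : Fin (m + 1) → ℂ) (t : Fin (m + 1) → ℝ), (∀ i, 0 < t i) →
    (Integrable (JnI (tl μ) (fun i => Real.log (t (Fin.rev i)))) →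
      Integrable (fun w : LIdx (m + 1) → ℝ =>
        (∏ j, ((Um (ML (t, w)) j : ℝ) : ℂ) ^ (be μ j)) * (starRingEnd ℂ) (ch w))) ∧
    ∫ w : LIdx (m + 1) → ℝ,
        (∏ j, ((Um (ML (t, w)) j : ℝ) : ℂ) ^ (be μ j)) * (starRingEnd ℂ) (ch w) =
      (∏ i, ((t i : ℝ) : ℂ) ^ (∑ k, μ k - ((m + 1 : ℕ) : ℂ))) *
        Jn m (tl μ) (fun i => Real.log (t (Fin.rev i))) ∧
    ∫ w : LIdx (m + 1) → ℝ, ‖∏ j, ((Um (ML (t, w)) j : ℝ) : ℂ) ^ (be μ j)‖ =
      (∏ i, (t i) ^ ((∑ k, μ k).re - (m + 1))) *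
        ∫ v, ‖JnI (tl μ) (fun i => Real.log (t (Fin.rev i))) v‖

/-- **SCAL** (uses `S_CHOL` for the positivity of the minors).  Substitute
`v_ij = exp (x_i - x_j) v'_ij`: `lM v * Dg x * (lM v)ᵀ = E (lM v' * (lM v')ᵀ) E`,
`E = diag (exp x_i)`, so each minor `Bm _ k.succ` is multiplied by `∏_(i ≥ k+1) exp (2 x_i)`. -/
def S_SCAL : Prop :=
  ∀ (m : ℕ) (μ : Fin m → ℂ) (x : Fin (m + 1) → ℝ),
    (∫⁻ v, ‖JnI μ x v‖ₑ) =
      ENNReal.ofReal (Real.exp ((∑ p : LIdx (m + 1), (x p.1.1 - x p.1.2)) -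
        ∑ k : Fin m, (μ k).re * ∑ i ∈ Finset.Ici k.succ, x i)) *
      ∫⁻ v, ‖JnI μ (fun _ => 0) v‖ₑ

/-- **CV.** The substitution `y_j = exp ξ_j` in all variables. -/
def S_CV : Prop :=
  ∀ (n : ℕ) (f : (Fin n → ℝ) → ℂ),
    (IntegrableOn f {y | ∀ j, 0 < y j} ↔
      Integrable (fun ξ : Fin n → ℝ => (∏ j, (Real.exp (ξ j) : ℂ)) * f (fun j => Real.exp (ξ j)))) ∧
    ∫ y in {y : Fin n → ℝ | ∀ j, 0 < y j}, f y =
      ∫ ξ : Fin n → ℝ, (∏ j, (Real.exp (ξ j) : ℂ)) * f (fun j => Real.exp (ξ j))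

/-- the integrand `Φ` of the main double integral; `M` is `MU q` or `ML q` -/
noncomputable def Phi {m : ℕ} (μ : Fin (m + 1) → ℂ) (x : Fin (m + 2) → ℝ)
    (M : Matrix (Fin (m + 1)) (Fin (m + 1)) ℝ)
    (zv : (Fin (m + 1) → ℝ) × (LIdx (m + 1) → ℝ)) : ℂ :=
  ((Real.exp (-Real.pi * (M * PZ x zv.1 zv.2).trace) : ℝ) : ℂ) *
    (∏ j, ((Um M j : ℝ) : ℂ) ^ (be μ j)) *
    (Complex.exp (-(2 * Real.pi * Complex.I) * (zv.1 0 : ℂ)) * ch zv.2)

/-- the right side of the recursion for the Jacquet integral -/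
noncomputable def Rec {m : ℕ} (μ : Fin (m + 1) → ℂ) (x : Fin (m + 2) → ℝ) : ℂ :=
  ((Real.exp (-∑ j : Fin (m + 2), ((m + 1 : ℝ) - (j : ℕ)) * x j) : ℝ) : ℂ) *
    ∫ τ : Fin (m + 1) → ℝ,
      ((Real.exp (-Real.pi * ∑ i : Fin (m + 1),
        (Real.exp (2 * (x i.succ - τ i)) + Real.exp (2 * (τ i - x i.castSucc)))) : ℝ) : ℂ) *
      (∏ i : Fin (m + 1), Complex.exp (-(((i : ℕ) : ℂ) + ∑ k, μ k - ((m + 1 : ℕ) : ℂ)) *
        (τ i : ℂ))) *
      Jn m (tl μ) (fun i => -τ (Fin.rev i))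

/-- **PHI2** (uses `S_UNI, S_CHOL, S_ZINT, S_WINT, S_FLIP, S_SCAL, S_CV`).  The double integral in
the coordinates `ML (t, w)`.  Write `W = lM w`, `L = lM v` (`zv = (z, v)`).  Then
`tr (ML(t,w) PZ) = tr ((W L)ᵀ t² (W L) diag(e^(2x'))) + e^(2x_0) ∑_i (t_i (W z)_i)²`.  For fixed
`t` substitute `(w, z, v) ↦ (w, z', w')`, `w' = w v` (product of the matrices, `S_UNI`), `z = L z'`
(so `W z = W' z'` and `z_0 = z'_0`), measure preserving; `ch v = conj (ch w) ch w'`.  The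
integrand becomes a product of a function of `w`, one of `(w', z')`; integrate `z'` (`S_ZINT` with
`D = exp (2 x_0)`, independent of `w'`), `w'` (`S_WINT`), `w` (`S_FLIP`).  What remains is
the integral over `t` of `∏ t_i^(2i) * ∏ (t_i e^(x_0))⁻¹ * exp (-π/(t_0² e^(2x_0))) * (S_WINT) *
(S_FLIP)`; `∏_(p ∈ LIdx) (t_(p.1) e^(x'_(p.2)))⁻¹ = ∏_i t_i^(-i) ∏_j e^(-(m-j) x'_j)`; the
substitution `t_i = exp (-τ_i)` (`S_CV`) gives `Rec`: the exponent of `t_i` is
`2 i - 1 - i + ∑ μ - (m+1)`, plus `1` from `dt`.  Absolute convergence: the same computation with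
absolute values (`S_ZINT`, `S_WINT` contain the integrals without characters; the norm of `Phi`
has no characters); the last integral is
`∏_i ∫ t_i^(e_i) exp (-π t_i² e^(2 x_(i+1))) dt_i` up to a constant by `S_SCAL`,
`e_i = ∑_(k ≤ i) (Re μ_k - 1) - 1 > -1`. -/
def S_PHI2 : Prop :=
  ∀ (m : ℕ) (μ : Fin (m + 1) → ℂ), (∀ k, 1 < (μ k).re) →
    (∀ x, Integrable (JnI (tl μ) x)) → ∀ x : Fin (m + 2) → ℝ,
    Integrable (fun r : ((Fin (m + 1) → ℝ) × (LIdx (m + 1) → ℝ)) ×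
        ((Fin (m + 1) → ℝ) × (LIdx (m + 1) → ℝ)) => Phi μ x (ML r.1) r.2)
      ((wL (m + 1)).prod (volume.prod volume)) ∧
    ∫ r, Phi μ x (ML r.1) r.2 ∂((wL (m + 1)).prod (volume.prod volume)) = Rec μ x

/-- **PHI1** (uses `S_PHI2, S_EXCH, S_KEY, S_SPLIT, S_SPLITC`).  By `S_EXCH` the function
`Phi μ x (MU q) zv` is integrable for `wU × vol × vol` with the same integral (`Phi` depends on `q`
only through the matrix; measurability of `Phi` in `(M, zv)` on `Fin m → Fin m → ℝ` is needed).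
Integrate over `q` first: by `S_KEY` with `P = PZ x z v` one gets
`cmu μ * ∏_k (Bm (PZ x z v) k)^(-μ_k/2)` times the characters, which by `S_SPLIT, S_SPLITC` is
`cmu μ * JnI μ x` at the point `v'` with `colZ v' = z`, `colR v' = v`.  `cmu μ ≠ 0`. -/
def S_PHI1 : Prop :=
  ∀ (m : ℕ) (μ : Fin (m + 1) → ℂ), (∀ k, 1 < (μ k).re) →
    (∀ x, Integrable (JnI (tl μ) x)) → ∀ x : Fin (m + 2) → ℝ,
    Integrable (JnI μ x) ∧ cmu μ * Jn (m + 1) μ x = Rec μ x

/-- **CLAIM** (uses `S_PHI1, S_DUAL`).  Induction on `m`.  `m = 0`: `LIdx 1` is empty,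
`Jn 0 = 1`, `Psi 1 α x = exp (α_0 x_0)`.  Step: `μ = muOf α`, `tl μ = muOf (fun i => -tl α i)`,
`∑ μ - (m+1) = α_0 - α_(m+1)`, `cmu μ = ∏_i GR (1 + α_0 - α_(i+1)) / 2`,
`Gam α = Gam (-tl α) ∏_(k ≥ 1) GR (1 + α_0 - α_k)`; in `Rec` insert the induction hypothesis for
`-tl α` at the point `(-τ_(rev i))_i` and `Psi (m+1) (-tl α) (-τ_rev) = Psi (m+1) (tl α) τ`
(`S_DUAL`).  All exponentials combine to `Qk (α 0) x τ`. -/
def S_CLAIM : Prop :=
  ∀ (m : ℕ) (α : Fin (m + 1) → ℂ), (∀ i : Fin m, 0 < (α i.castSucc - α i.succ).re) →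
    ∀ x : Fin (m + 1) → ℝ, Integrable (JnI (muOf α) x) ∧
    Gam α * Jn m (muOf α) x = 2 ^ (m * (m + 1) / 2) *
      Complex.exp (-(α 0) * ((∑ i, x i : ℝ) : ℂ) -
        ((∑ j : Fin (m + 1), ((m : ℝ) - (j : ℕ)) * x j : ℝ) : ℂ)) * Psi (m + 1) α x

/-- **IWA1** (uses `S_CHOL`).  The Iwasawa coordinates.  If `g = r (x d k)` with `x` upper
unipotent, `d = dMat y`, `k` orthogonal then `g gᵀ = r² x d² xᵀ`, so
`Bm (g gᵀ) k = ∏_(i ≥ k) r² d_i²` for all `k`: the `y_j` are determined by the minors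
(`d_k / d_(k+1) = y_(N-1-k)`, `d_N = 1`).  Existence: `S_CHOL` for `g gᵀ`. With
`∑ (α_i + ρ_i) = 0` one gets `Ifun g α = ∏_(k=0)^(N) (r d_k)^(α_k + ρ_k)`
`= Bm_0^((α_0+ρ_0)/2) ∏_(k ≥ 1) Bm_k^(-(1 + α_(k-1) - α_k)/2)`. -/
def S_IWA1 : Prop :=
  ∀ (N : ℕ) (g : Matrix (Fin (N + 1)) (Fin (N + 1)) ℝ), IsUnit g.det →
    (∃ y, IsIwasawa g y) ∧ (∀ y y', IsIwasawa g y → IsIwasawa g y' → y = y') ∧
    ∀ α : Fin (N + 1) → ℂ, ∑ i, α i = 0 →
      Ifun g α = ((Bm (g * g.transpose) 0 : ℝ) : ℂ) ^ ((α 0 + ((rhoI (0 : Fin (N + 1)) : ℝ) : ℂ)) / 2) *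
        ∏ k : Fin N, ((Bm (g * g.transpose) k.succ : ℝ) : ℂ) ^ (-(muOf α k) / 2)

/-- **IWA2** (uses `S_IWA1, S_CHOL`).  Write `w = wLong`, `d = dMat y`; `w u d = l d' w` with
`l = w u w` lower unipotent, `l_ij = u_(rev i, rev j)`, `d' = w d w = diag (e^(x_i))`,
`x = xOf (log y)`.  So `(w u d)(w u d)ᵀ = l Dg(x) lᵀ`, whose determinant is `exp (2 ∑ x_i)`.  The
map `u ↦ l` is a permutation of coordinates, and `conj (psiU u) = ch l`. -/
def S_IWA2 : Prop :=
  ∀ (N : ℕ) (α : Fin (N + 1) → ℂ), ∑ i, α i = 0 → ∀ y : Fin N → ℝ, (∀ j, 0 < y j) →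
    (Integrable (JnI (muOf α) (xOf (fun j => Real.log (y j)))) →
      Integrable (jacInt (dMat y) α)) ∧
    ∫ u, jacInt (dMat y) α u =
      Complex.exp ((α 0 + ((rhoI (0 : Fin (N + 1)) : ℝ) : ℂ)) *
        ((∑ i, xOf (fun j => Real.log (y j)) i : ℝ) : ℂ)) *
      Jn N (muOf α) (xOf (fun j => Real.log (y j)))

/-! ## Part D (Mellin transform) -/

/-- **MEL.** Let `φ_r(ξ) = χ(ξ / r)` with `χ` smooth, compactly supported, `χ = 1` near `0`,
`0 ≤ χ ≤ 1`, and `E(ξ) = exp (2 ∑ s_j ξ_j)`.  Multiply the pointwise identity by `φ_r E`,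
integrate, and move all derivatives to `φ_r E` (integration by parts with a compactly supported
smooth function): `∫ (θ(P) H) φ_r E = ∫ H (P(½ ∂) (φ_r E))`, and
`P(½ ∂)(φ_r E) = E * P(s + ½ ∂) φ_r`.  By `MvPolynomial.induction_on` the functions
`P(s + ½∂) φ_r` are bounded uniformly in `r ≥ 1` and converge pointwise to `P(s)` for
`r → ∞` (they are sums of `r^(-k) h_k(ξ/r)` with `h_k` bounded, `h_0 = P(s) χ`).  Dominated
convergence with the integrable functions `H_i E`. -/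
def S_MEL : Prop :=
  ∀ (N : ℕ) (R : Rep N (Module.End ℂ (Sm N))), IsRepXi N R → ∀ (r : ℕ)
    (P : Fin r → MvPolynomial (Fin N) ℂ) (H : Fin r → Sm N) (s : Fin N → ℂ),
    ∑ i, R.θ (P i) (H i) = 0 →
    (∀ i, Integrable (fun ξ : Fin N → ℝ => (H i).1 ξ *
      Complex.exp (2 * ∑ j, s j * (ξ j : ℂ)))) →
    ∑ i, MvPolynomial.eval s (P i) * ∫ ξ : Fin N → ℝ, (H i).1 ξ *
      Complex.exp (2 * ∑ j, s j * (ξ j : ℂ)) = 0

/-- **UNIQ.** Two entire functions of `α ∈ ℂ^(N+1)` which agree on the part of the hyperplane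
`∑ α = 0` inside the open cone agree on the hyperplane: for `α` on the hyperplane and `α'` in the
cone consider the entire function `z ↦ F(α' + z (α - α')) - G(...)`, which vanishes for real
small `z`, hence identically (identity theorem); take `z = 1`. -/
def S_UNIQ : Prop :=
  ∀ (N : ℕ) (F G : (Fin (N + 1) → ℂ) → ℂ), Differentiable ℂ F → Differentiable ℂ G →
    (∀ α : Fin (N + 1) → ℂ, ∑ i, α i = 0 → (∀ i : Fin N, 0 < (α i.castSucc - α i.succ).re) →
      F α = G α) → ∀ α : Fin (N + 1) → ℂ, ∑ i, α i = 0 → F α = G α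

end Pool.Agent.W181.WH
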