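import Pool.Agent.W181.WH.Fin
import Pool.Agent.W181.WH.Cv
import Pool.Agent.W181.WH.Uniq
import Pool.Agent.W800.WH.Coef
import Pool.Agent.W800.WH.Rel
import Pool.Agent.W800.WH.Vmul
import Pool.Agent.W800.WH.Dec
import Pool.Agent.W800.WH.Wint
import Pool.Agent.W181.WH.Split
import Pool.Agent.W782.WH.COMM
import Pool.Agent.W782.WH.CONT
import Pool.Agent.W782.WH.STEP
import Pool.Agent.W782.WH.XI
import Pool.Agent.W191.WH.SYM
import Pool.Agent.W191.WH.KKD
import Pool.Agent.W62.WS.Van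
import Pool.Agent.W62.WS.Scal
import Pool.Agent.W440.WH.ONE
import Pool.Agent.W440.WH.DEL
import Pool.Agent.W440.WH.HOLI
import Pool.Agent.W440.WH.UNI
import Pool.Agent.W395.WH.ALG
import Pool.Agent.W395.WH.ZINT
import Pool.Agent.W918.WH.REP
import Pool.Agent.W389.WH.KKI
import Pool.Agent.W839.WH.IBP
import Pool.Agent.W214.WH.Eigx
import Pool.Agent.W293.WH.TRANS
import Pool.Agent.W573.WH.Hol
import Pool.Agent.W573.WH.Flip
import Pool.Agent.W573.WH.Mel
import Pool.Agent.W291.WH.Exch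
import Pool.Agent.W74.WH.CHOL
import Pool.Agent.W239.WH.KEY
import Pool.Agent.W239.WH.CLAIM
import Pool.Agent.W61.WH.PHI2
import Pool.Agent.W352.WH.PHI1
import Pool.Agent.W462.WH.IWA1
import Pool.Agent.W462.WH.IWA2

/-!
# Project WH: all parts together
-/

open MeasureTheory

namespace Pool.Agent.W181.WH

theorem h_coef : S_COEF := Pool.Agent.W800.WH.t_coef
theorem h_comm : S_COMM := Pool.Agent.W782.WH.t_comm h_coef
theorem h_rel : S_REL := Pool.Agent.W800.WH.t_rel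
theorem h_vmul : S_VMUL := Pool.Agent.W800.WH.t_vmul
theorem h_dec : S_DEC := Pool.Agent.W800.WH.t_dec h_coef h_rel h_vmul
theorem h_sym : S_SYM := Pool.Agent.W191.WH.SYM.t_sym
theorem h_van : S_VAN := Pool.Agent.W62.WS.t_VAN
theorem h_one : S_ONE := Pool.Agent.W440.WH.t_one h_coef h_comm h_rel h_vmul h_dec h_van
theorem h_del : S_DEL := Pool.Agent.W440.WH.t_del h_one h_coef h_comm h_rel h_vmul
theorem h_alg : S_ALG := Pool.Agent.W395.WH.ALG.t_alg h_del h_sym h_coef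
theorem h_rep : S_REP := Pool.Agent.W918.WH.t_rep
theorem h_kki : S_KKI := Pool.Agent.W389.WH.t_kki
theorem h_kki2 : S_KKI2 := Pool.Agent.W389.WH.t_kki2
theorem h_kkd : S_KKD := Pool.Agent.W191.WH.KKD.t_kkd h_kki h_kki2
theorem h_ibp : S_IBP := Pool.Agent.W839.WH.t_ibp h_kki
theorem h_cont : S_CONT := Pool.Agent.W782.WH.t_cont
theorem h_step : S_STEP := Pool.Agent.W782.WH.t_step h_kki h_kkd h_ibp h_cont
theorem h_eigx : S_EIGX := Pool.Agent.W214.WH.t_eigx h_step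
theorem h_trans : S_TRANS := Pool.Agent.W293.WH.t_trans
theorem h_dual : S_DUAL := Pool.Agent.W293.WH.t_dual
theorem h_xi : S_XI := Pool.Agent.W782.WH.XI.t_xi
theorem h_hol : S_HOL := Pool.Agent.W573.WH.Hol.t_hol Pool.Agent.W440.WH.t_holi h_kkd h_kki
theorem h_uni : S_UNI := Pool.Agent.W440.WH.t_uni
theorem h_exch : S_EXCH := Pool.Agent.W291.WH.t_exch
theorem h_chol : S_CHOL := Pool.Agent.W74.WH.CHOL.t_chol
theorem h_key : S_KEY := Pool.Agent.W239.WH.t_key h_uni h_chol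
theorem h_zint : S_ZINT := Pool.Agent.W395.WH.ZINT.t_zint h_uni
theorem h_wint : S_WINT := Pool.Agent.W800.WH.t_wint
theorem h_split : S_SPLIT := t_split
theorem h_splitc : S_SPLITC := t_splitc
theorem h_flip : S_FLIP := Pool.Agent.W573.WH.Flip.t_flip
theorem h_scal : S_SCAL := Pool.Agent.W62.WS.t_scal h_chol
theorem h_phi2 : S_PHI2 :=
  Pool.Agent.W61.WH.t_phi2 h_uni h_chol h_zint h_wint h_flip h_scal t_cv
theorem h_phi1 : S_PHI1 := Pool.Agent.W352.WH.t_phi1 h_phi2 h_exch h_key h_split h_splitc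
theorem h_claim : S_CLAIM := Pool.Agent.W239.WHC.t_claim h_phi1 h_dual
theorem h_iwa2 : S_IWA2 := Pool.Agent.W462.WH.t_iwa2 (Pool.Agent.W462.WH.t_iwa1 h_chol)
theorem h_mel : S_MEL := Pool.Agent.W573.WH.Mel.t_mel

theorem shift_all (N : ℕ) :
    (∃ W, IsWhittaker N W) ∧
    ∀ (m : Fin N) (δ : ℕ), ∃ (r : ℕ) (P : Fin r → MvPolynomial (Fin N ⊕ Fin (N + 1)) ℂ)
      (S : Fin r → Fin N → ℕ), 1 ≤ r ∧
      (∀ i, P i ≠ 0 ∧
        (P i).totalDegree + 2 * ∑ j, S i j = δ * (N + 1).choose ((m : ℕ) + 1)) ∧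
      (∀ i, δ ≤ S i m) ∧
      ∀ W, IsWhittaker N W → ∀ α : Fin (N + 1) → ℂ, ∑ i, α i = 0 → ∀ s : Fin N → ℂ,
        MelConv W α s → (∀ i, MelConv W α (fun j => s j + (S i j : ℂ))) →
        (∏ J ∈ Finset.powersetCard ((m : ℕ) + 1) (Finset.univ : Finset (Fin (N + 1))),
          rise (s m - ∑ j ∈ J, α j) δ) * mel W α s =
        ∑ i, MvPolynomial.eval (Sum.elim s α) (P i) * mel W α (fun j => s j + (S i j : ℂ)) :=
  final h_claim h_iwa2 h_hol t_uniq t_cv h_eigx h_trans h_xi h_mel h_rep h_alg N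

end Pool.Agent.W181.WH
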