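import Pool.Agent.W181.WH.Stm

/-!
# Project WH: assembly
-/

open MeasureTheory

namespace Pool.Agent.W181.WH

theorem contDiff_xOf {N : ℕ} : ContDiff ℝ (⊤ : ℕ∞) (xOf : (Fin N → ℝ) → Fin (N + 1) → ℝ) := by
  rw [contDiff_pi]
  intro k
  unfold xOf
  refine ContDiff.sum fun j _ => ?_
  split_ifs
  · exact contDiff_apply ℝ ℝ j
  · exact contDiff_const

theorem xOf_xiOf {N : ℕ} (x : Fin (N + 1) → ℝ) (k : Fin (N + 1)) :
    xOf (xiOf x) k = x k - x 0 := by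
  unfold xOf xiOf
  induction k using Fin.induction with
  | zero => simp
  | succ k ih =>
    have h1 : (∑ j : Fin N, if (j : ℕ) < (k.succ : Fin (N + 1)) then x j.succ - x j.castSucc else 0) =
        (∑ j : Fin N, if (j : ℕ) < (k.castSucc : Fin (N + 1)) then x j.succ - x j.castSucc else 0) +
        (x k.succ - x k.castSucc) := by
      have h2 : (x k.succ - x k.castSucc) =
          ∑ j : Fin N, if j = k then x j.succ - x j.castSucc else 0 := by simp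
      rw [h2, ← Finset.sum_add_distrib]
      refine Finset.sum_congr rfl fun j _ => ?_
      simp only [Fin.val_succ, Fin.val_castSucc, Fin.ext_iff]
      split_ifs <;> first | omega | simp
    rw [h1, ih]
    ring

theorem xiOf_xOf {N : ℕ} (ξ : Fin N → ℝ) : xiOf (xOf ξ) = ξ := by
  funext k
  unfold xiOf xOf
  have h1 : (∑ j : Fin N, if (j : ℕ) < (k.succ : Fin (N + 1)) then ξ j else 0) =
        (∑ j : Fin N, if (j : ℕ) < (k.castSucc : Fin (N + 1)) then ξ j else 0) + ξ k := by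
    have h2 : ξ k = ∑ j : Fin N, if j = k then ξ j else 0 := by simp
    rw [h2, ← Finset.sum_add_distrib]
    refine Finset.sum_congr rfl fun j _ => ?_
    simp only [Fin.val_succ, Fin.val_castSucc, Fin.ext_iff]
    split_ifs <;> first | omega | simp
  rw [h1]
  ring

/-- the eigenfunction in the variables `ξ` -/
theorem eig (hE : S_EIGX) (hT : S_TRANS) (hX : S_XI) {N : ℕ}
    (R : Rep N (Module.End ℂ (Sm N))) (hR : IsRepXi N R) (α : Fin (N + 1) → ℂ)
    (hα : ∑ i, α i = 0) :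
    ∃ F : Sm N, (∀ ξ, F.1 ξ = Psi (N + 1) (fun i => 2 * α i) (xOf ξ)) ∧
      ∀ z : ℂ, Ach R.p R.T z (N + 1) F = (∏ j, (z - α j)) • F := by
  obtain ⟨hG, hz⟩ := hE (N + 1) α
  have hF : ContDiff ℝ (⊤ : ℕ∞)
      (fun ξ : Fin N → ℝ => Psi (N + 1) (fun i => 2 * α i) (xOf ξ)) :=
    hG.1.comp contDiff_xOf
  refine ⟨⟨_, hF⟩, fun ξ => rfl, fun z => ?_⟩
  have h2 : ∑ i, 2 * α i = 0 := by rw [← Finset.mul_sum, hα, mul_zero]
  have hcomp : (fun x : Fin (N + 1) → ℝ =>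
      Psi (N + 1) (fun i => 2 * α i) (xOf (xiOf x))) = Psi (N + 1) (fun i => 2 * α i) := by
    funext x
    have h3 := hT (N + 1) (fun i => 2 * α i) (xOf (xiOf x)) (x 0)
    rw [h2, mul_zero, Complex.exp_zero, one_mul] at h3
    rw [← h3]
    congr 1
    funext i
    rw [xOf_xiOf]
    ring
  have hGc : ContDiff ℝ (⊤ : ℕ∞) (fun x : Fin (N + 1) → ℝ =>
      (⟨_, hF⟩ : Sm N).1 (xiOf x)) := by
    show ContDiff ℝ (⊤ : ℕ∞) (fun x : Fin (N + 1) → ℝ =>
      Psi (N + 1) (fun i => 2 * α i) (xOf (xiOf x)))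
    rw [hcomp]
    exact hG.1
  apply Subtype.ext
  funext ξ
  have h4 := hX N R hR ⟨_, hF⟩ hGc z (xOf ξ)
  rw [xiOf_xOf] at h4
  rw [← h4]
  have h5 : (⟨fun x : Fin (N + 1) → ℝ => (⟨_, hF⟩ : Sm N).1 (xiOf x), hGc⟩ : Sm (N + 1)) =
      ⟨Psi (N + 1) (fun i => 2 * α i), hG.1⟩ := Subtype.ext hcomp
  rw [h5, hz z]
  rfl

/-- Mellin transform of the basic identity, for the function `F` -/
theorem mellinF (hE : S_EIGX) (hT : S_TRANS) (hX : S_XI) (hM : S_MEL)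
    {N : ℕ} (R : Rep N (Module.End ℂ (Sm N))) (hR : IsRepXi N R) (m : Fin N) (δ : ℕ)
    (r : ℕ) (P : Fin r → MvPolynomial (Fin N) ℂ) (S : Fin r → Fin N → ℕ)
    (hA : ∀ (F : Sm N) (α : Fin (N + 1) → ℂ),
      (∀ z : ℂ, Ach R.p R.T z (N + 1) F = (∏ j, (z - α j)) • F) →
      R.θ (prodJ m ((m : ℕ) + 1) δ α) F = ∑ i, R.θ (P i) (R.τ (S i) F))
    (α : Fin (N + 1) → ℂ) (hα : ∑ i, α i = 0) (s : Fin N → ℂ)
    (G : (Fin N → ℕ) → (Fin N → ℝ) → ℂ)
    (hG : ∀ (S' : Fin N → ℕ) (ξ : Fin N → ℝ), G S' ξ =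
      (∏ j, ((Real.pi ^ 2 * Real.exp (2 * ξ j) : ℝ) : ℂ) ^ (S' j)) *
        Psi (N + 1) (fun i => 2 * α i) (xOf ξ) * Complex.exp (2 * ∑ j, s j * (ξ j : ℂ)))
    (h0 : Integrable (G 0)) (hS : ∀ i, Integrable (G (S i))) :
    MvPolynomial.eval s (prodJ m ((m : ℕ) + 1) δ α) * ∫ ξ, G 0 ξ =
      ∑ i, MvPolynomial.eval s (P i) * ∫ ξ, G (S i) ξ := by
  obtain ⟨F, hF, hz⟩ := eig hE hT hX R hR α hα
  have h1 := hA F α hz
  have hfun : ∀ S' : Fin N → ℕ, (fun ξ : Fin N → ℝ => (R.τ S' F).1 ξ *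
      Complex.exp (2 * ∑ j, s j * (ξ j : ℂ))) = G S' := by
    intro S'
    funext ξ
    rw [hG, hR.2 S' F ξ, hF]
  have hfun0 : (fun ξ : Fin N → ℝ => F.1 ξ *
      Complex.exp (2 * ∑ j, s j * (ξ j : ℂ))) = G 0 := by
    funext ξ
    rw [hG, hF]
    simp
  have h2 := hM N R hR (r + 1) (Fin.cons (prodJ m ((m : ℕ) + 1) δ α) (fun i => -P i))
    (Fin.cons F (fun i => R.τ (S i) F)) s ?_ ?_
  · rw [Fin.sum_univ_succ] at h2
    simp only [Fin.cons_zero, Fin.cons_succ] at h2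
    rw [hfun0] at h2
    simp only [hfun] at h2
    simp only [map_neg, neg_mul, Finset.sum_neg_distrib] at h2
    exact eq_of_sub_eq_zero (by rw [sub_eq_add_neg]; exact h2)
  · rw [Fin.sum_univ_succ]
    simp only [Fin.cons_zero, Fin.cons_succ]
    rw [h1]
    simp
  · intro i
    refine Fin.cases ?_ (fun i => ?_) i
    · simp only [Fin.cons_zero]
      rw [hfun0]
      exact h0
    · simp only [Fin.cons_succ]
      rw [hfun]
      exact hS i

/-- the Whittaker function through the Givental function -/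
noncomputable def W0 (N : ℕ) (α : Fin (N + 1) → ℂ) (y : Fin N → ℝ) : ℂ :=
  2 ^ (N * (N + 1) / 2) *
    Complex.exp ((∑ k : Fin (N + 1), ((k : ℕ) - (N : ℝ) / 2) *
      xOf (fun j => Real.log (y j)) k : ℝ) : ℂ) *
    Psi (N + 1) α (xOf (fun j => Real.log (y j)))

theorem gam_eq {N : ℕ} (α : Fin (N + 1) → ℂ) :
    (∏ j : Fin (N + 1), ∏ k : Fin (N + 1), if j < k then
      Complex.Gamma ((1 + α j - α k) / 2) / (Real.pi : ℂ) ^ ((1 + α j - α k) / 2) else 1) =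
    Gam α := by
  unfold Gam GR
  refine Finset.prod_congr rfl fun j _ => Finset.prod_congr rfl fun k _ => ?_
  split_ifs
  · rw [neg_div, Complex.cpow_neg, div_eq_mul_inv, mul_comm]
  · rfl

theorem W0_cone (hC : S_CLAIM) (hI : S_IWA2) {N : ℕ} (α : Fin (N + 1) → ℂ)
    (hα : ∑ i, α i = 0) (hc : ∀ i : Fin N, 0 < (α i.castSucc - α i.succ).re)
    (y : Fin N → ℝ) (hy : ∀ j, 0 < y j) :
    Integrable (jacInt (dMat y) α) ∧ W0 N α y = WCone α y := by
  obtain ⟨h1, h2⟩ := hC N α hc (xOf (fun j => Real.log (y j)))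
  obtain ⟨h3, h4⟩ := hI N α hα y hy
  refine ⟨h3 h1, ?_⟩
  unfold WCone W0
  rw [gam_eq, h4]
  rw [show Gam α * (Complex.exp ((α 0 + ((rhoI (0 : Fin (N + 1)) : ℝ) : ℂ)) *
        ((∑ i, xOf (fun j => Real.log (y j)) i : ℝ) : ℂ)) *
      Jn N (muOf α) (xOf (fun j => Real.log (y j)))) =
      Complex.exp ((α 0 + ((rhoI (0 : Fin (N + 1)) : ℝ) : ℂ)) *
        ((∑ i, xOf (fun j => Real.log (y j)) i : ℝ) : ℂ)) *
      (Gam α * Jn N (muOf α) (xOf (fun j => Real.log (y j)))) by ring, h2]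
  have h5 : Complex.exp ((∑ k : Fin (N + 1), ((k : ℕ) - (N : ℝ) / 2) *
      xOf (fun j => Real.log (y j)) k : ℝ) : ℂ) =
      Complex.exp ((α 0 + ((rhoI (0 : Fin (N + 1)) : ℝ) : ℂ)) *
        ((∑ i, xOf (fun j => Real.log (y j)) i : ℝ) : ℂ)) *
      Complex.exp (-(α 0) * ((∑ i, xOf (fun j => Real.log (y j)) i : ℝ) : ℂ) -
        ((∑ j : Fin (N + 1), ((N : ℝ) - (j : ℕ)) * xOf (fun j => Real.log (y j)) j : ℝ) : ℂ)) := by
    rw [← Complex.exp_add]
    congr 1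
    have h6 : (∑ k : Fin (N + 1), ((k : ℕ) - (N : ℝ) / 2) *
        xOf (fun j => Real.log (y j)) k) =
        rhoI (0 : Fin (N + 1)) * (∑ i, xOf (fun j => Real.log (y j)) i) -
        ∑ j : Fin (N + 1), ((N : ℝ) - (j : ℕ)) * xOf (fun j => Real.log (y j)) j := by
      rw [Finset.mul_sum, ← Finset.sum_sub_distrib]
      refine Finset.sum_congr rfl fun k _ => ?_
      unfold rhoI
      simp
      ring
    rw [h6]
    push_cast
    ring
  rw [h5]
  ring

theorem W0_entire (hH : S_HOL) {N : ℕ} (y : Fin N → ℝ) :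
    Differentiable ℂ (fun α : Fin (N + 1) → ℂ => W0 N α y) := by
  unfold W0
  exact (hH (N + 1) _).const_mul _

theorem isWhittaker_W0 (hC : S_CLAIM) (hI : S_IWA2) (hH : S_HOL) (N : ℕ) :
    IsWhittaker N (W0 N) :=
  ⟨fun α hα hc y hy => W0_cone hC hI α hα hc y hy,
    fun y _ => ⟨fun α => W0 N α y, W0_entire hH y, fun _ _ => rfl⟩⟩

theorem eq_W0 (hC : S_CLAIM) (hI : S_IWA2) (hH : S_HOL) (hU : S_UNIQ) {N : ℕ}
    (W : (Fin (N + 1) → ℂ) → (Fin N → ℝ) → ℂ) (hW : IsWhittaker N W)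
    (α : Fin (N + 1) → ℂ) (hα : ∑ i, α i = 0) (y : Fin N → ℝ) (hy : ∀ j, 0 < y j) :
    W α y = W0 N α y := by
  obtain ⟨F, hF, hFW⟩ := hW.2 y hy
  rw [hFW α hα]
  refine hU N F (fun α => W0 N α y) hF (W0_entire hH y) ?_ α hα
  intro α' hα' hc
  show F α' = W0 N α' y
  rw [← hFW α' hα', (hW.1 α' hα' hc y hy).2, (W0_cone hC hI α' hα' hc y hy).2]

theorem sum_x {N : ℕ} (ξ : Fin N → ℝ) :
    (∑ k : Fin (N + 1), ((k : ℕ) - (N : ℝ) / 2) * xOf ξ k) =
      ∑ j : Fin N, ξ j * ((((j : ℕ) + 1 : ℕ) : ℝ) * ((N - (j : ℕ) : ℕ) : ℝ) / 2) := by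
  unfold xOf
  simp only [Finset.mul_sum]
  rw [Finset.sum_comm]
  refine Finset.sum_congr rfl fun j _ => ?_
  have h1 : ∀ k : Fin (N + 1), ((k : ℕ) - (N : ℝ) / 2) * (if (j : ℕ) < k then ξ j else 0) =
      ξ j * (if (j : ℕ) < k then ((k : ℕ) - (N : ℝ) / 2) else 0) := by
    intro k
    split_ifs <;> ring
  simp only [h1]
  rw [← Finset.mul_sum]
  congr 1
  rw [Fin.sum_univ_eq_sum_range (fun k => if (j : ℕ) < k then ((k : ℝ) - (N : ℝ) / 2) else 0) (N + 1)]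
  have hj : (j : ℕ) < N := j.2
  generalize (j : ℕ) = a at hj
  have key : ∀ n : ℕ, ∑ k ∈ Finset.range (n + 1), (if a < k then ((k : ℝ) - (N : ℝ) / 2) else 0) =
      if a ≤ n then ((n : ℝ) - a) * ((n : ℝ) + a + 1 - N) / 2 else 0 := by
    intro n
    induction n with
    | zero =>
      by_cases ha : a = 0
      · subst ha; simp
      · have : ¬ a ≤ 0 := by omega
        simp [this]
    | succ n ih =>
      rw [Finset.sum_range_succ, ih]
      by_cases h1 : a ≤ n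
      · have h2 : a < n + 1 := by omega
        have h3 : a ≤ n + 1 := by omega
        simp only [h1, h2, h3, if_true]
        push_cast
        ring
      · by_cases h2 : a = n + 1
        · subst h2
          simp
        · have h3 : ¬ a < n + 1 := by omega
          have h4 : ¬ a ≤ n + 1 := by omega
          simp [h1, h3, h4]
  rw [key N]
  rw [if_pos hj.le, Nat.cast_sub hj.le]
  push_cast
  ring

end Pool.Agent.W181.WH
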