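import Mathlib

/-!
# Project WH: shift equations for Mellin transforms of GL(n,R) Whittaker functions

Basic definitions (see `Pool.Agent.W181.WH.Stm` for the plan and the statements).
-/

open MeasureTheory

namespace Pool.Agent.W181.WH

/-! ## Part A: difference operators and the open Toda chain -/

/-- `(shiftP S P)(s) = P(s + S)` -/
noncomputable def shiftP {N : ℕ} (S : Fin N → ℕ) :
    MvPolynomial (Fin N) ℂ →ₐ[ℂ] MvPolynomial (Fin N) ℂ :=
  MvPolynomial.aeval (fun j => MvPolynomial.X j + MvPolynomial.C (S j : ℂ))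

/-- A representation of the algebra of difference operators `P(s) T^S`, where `T^S` is the
shift `s ↦ s + S`: `θ P` is the operator of multiplication by the polynomial `P`, `τ S` is `T^S`. -/
structure Rep (N : ℕ) (B : Type) [Ring B] [Algebra ℂ B] where
  θ : MvPolynomial (Fin N) ℂ →ₐ[ℂ] B
  τ : (Fin N → ℕ) → B
  τ_zero : τ 0 = 1
  τ_add : ∀ S S', τ (S + S') = τ S * τ S'
  comm : ∀ S P, τ S * θ P = θ (shiftP S P) * τ S

/-- the variable `s_j` for `1 ≤ j ≤ N`, and `0` for all other `j` -/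
noncomputable def sv (N : ℕ) (j : ℕ) : MvPolynomial (Fin N) ℂ :=
  if h : 1 ≤ j ∧ j ≤ N then MvPolynomial.X ⟨j - 1, by omega⟩ else 0

/-- the shift `T_j` for `1 ≤ j ≤ N`, and `0` for all other `j` -/
noncomputable def Rep.T {N : ℕ} {B : Type} [Ring B] [Algebra ℂ B] (R : Rep N B) (j : ℕ) : B :=
  if h : 1 ≤ j ∧ j ≤ N then R.τ (Pi.single ⟨j - 1, by omega⟩ 1) else 0

/-- the momentum `p_k = s_k - s_{k-1}` -/
noncomputable def Rep.p {N : ℕ} {B : Type} [Ring B] [Algebra ℂ B] (R : Rep N B) (k : ℕ) : B :=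
  R.θ (sv N k - sv N (k - 1))

/-- The open Toda chain with momenta `p 1, ..., p l` and couplings `T 1, ..., T (l-1)`:
`Ach p T z l = (z - p_l) Ach (l-1) + T_{l-1} Ach (l-2)`. -/
noncomputable def Ach {B : Type} [Ring B] [Algebra ℂ B] (p T : ℕ → B) (z : ℂ) : ℕ → B
  | 0 => 1
  | 1 => algebraMap ℂ B z - p 1
  | (l + 2) => (algebraMap ℂ B z - p (l + 2)) * Ach p T z (l + 1) + T (l + 1) * Ach p T z l

/-- the coefficients of the chain: `Ach p T z l = ∑_{k ≤ l} (-1)^k z^(l-k) Dch p T l k`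
(this is statement `S_COEF`) -/
noncomputable def Dch {B : Type} [Ring B] (p T : ℕ → B) : ℕ → ℕ → B
  | 0, 0 => 1
  | 0, (_ + 1) => 0
  | 1, 0 => 1
  | 1, 1 => p 1
  | 1, (_ + 2) => 0
  | (_ + 2), 0 => 1
  | (l + 2), 1 => Dch p T (l + 1) 1 + p (l + 2)
  | (l + 2), (k + 2) => Dch p T (l + 1) (k + 2) + p (l + 2) * Dch p T (l + 1) (k + 1)
      + T (l + 1) * Dch p T l k

/-- The span of the operators `P(s) T^S` with `deg P + 2 |S| ≤ w` and `S m ≥ δ`. -/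
def Rep.V {N : ℕ} {B : Type} [Ring B] [Algebra ℂ B] (R : Rep N B) (m : Fin N) (δ w : ℕ) :
    Submodule ℂ B :=
  Submodule.span ℂ {b | ∃ (P : MvPolynomial (Fin N) ℂ) (S : Fin N → ℕ),
    P.totalDegree + 2 * ∑ j, S j ≤ w ∧ δ ≤ S m ∧ b = R.θ P * R.τ S}

/-- the rising factorial `(x)_δ = x (x+1) ... (x+δ-1)` -/
def rise {A : Type*} [CommRing A] (x : A) (δ : ℕ) : A := ∏ i ∈ Finset.range δ, (x + (i : A))

/-- the polynomial `∏_J (s_m - ∑_{j ∈ J} α_j)_δ`, `J` over the `k`-element subsets of `Fin n`,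
in the variable `s_m` (`m : Fin N`) -/
noncomputable def prodJ {N n : ℕ} (m : Fin N) (k δ : ℕ) (α : Fin n → ℂ) :
    MvPolynomial (Fin N) ℂ :=
  ∏ J ∈ Finset.powersetCard k (Finset.univ : Finset (Fin n)),
    rise (MvPolynomial.X m - MvPolynomial.C (∑ j ∈ J, α j)) δ

/-! ## Part B: the Givental functions -/

/-- the parameters `(α_n, ..., α_2)` made of `(α_1, ..., α_n)` (drop the first one and reverse) -/
def tl {A : Type*} {n : ℕ} (α : Fin (n + 1) → A) : Fin n → A := fun i => α (Fin.rev i).succ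

/-- the kernel of the recursion -/
noncomputable def Qk {n : ℕ} (a : ℂ) (x : Fin (n + 1) → ℝ) (t : Fin n → ℝ) : ℂ :=
  Complex.exp (a * ((∑ i, x i - ∑ i, t i : ℝ) : ℂ)) *
    ((Real.exp (-Real.pi * ∑ k : Fin n,
      (Real.exp (2 * (x k.succ - t k)) + Real.exp (2 * (t k - x k.castSucc)))) : ℝ) : ℂ)

/-- the Givental (Whittaker) functions on `ℝ^n` -/
noncomputable def Psi : (n : ℕ) → (Fin n → ℂ) → (Fin n → ℝ) → ℂ
  | 0, _, _ => 1
  | n + 1, α, x => ∫ t : Fin n → ℝ, Qk (α 0) x t * Psi n (tl α) t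

/-- exponential growth -/
def ExpGr {n : ℕ} (H : (Fin n → ℝ) → ℂ) : Prop :=
  ∃ C b : ℝ, ∀ x, ‖H x‖ ≤ C * Real.exp (b * ∑ i, |x i|)

/-- partial derivative -/
noncomputable def pd {n : ℕ} (k : Fin n) (F : (Fin n → ℝ) → ℂ) : (Fin n → ℝ) → ℂ :=
  fun x => fderiv ℝ F x (Pi.single k 1)

/-- smooth functions all of whose iterated partial derivatives have exponential growth -/
def Good {n : ℕ} (F : (Fin n → ℝ) → ℂ) : Prop :=
  ContDiff ℝ (⊤ : ℕ∞) F ∧ ∀ l : List (Fin n), ExpGr (l.foldr pd F)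

/-- `ρ_k = π exp (2 (x_{k+1} - t_k))` and `σ_k = π exp (2 (t_k - x_k))` (`k` from `0`); the first
is indexed by `Sum.inl k`, the second by `Sum.inr k` -/
noncomputable def rs {n : ℕ} (x : Fin (n + 1) → ℝ) (t : Fin n → ℝ) : Fin n ⊕ Fin n → ℂ
  | Sum.inl k => ((Real.pi * Real.exp (2 * (x k.succ - t k)) : ℝ) : ℂ)
  | Sum.inr k => ((Real.pi * Real.exp (2 * (t k - x k.castSucc)) : ℝ) : ℂ)

/-- the integrals `∫ f(ρ, σ) Q_{2a}(x, t) H(t) dt` -/
noncomputable def KK {n : ℕ} (a : ℂ) (H : (Fin n → ℝ) → ℂ)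
    (f : MvPolynomial (Fin n ⊕ Fin n) ℂ) (x : Fin (n + 1) → ℝ) : ℂ :=
  ∫ t : Fin n → ℝ, MvPolynomial.eval (rs x t) f * Qk (2 * a) x t * H t

/-- the polynomial `ρ_j` (`1 ≤ j ≤ n`), `0` for other `j` -/
noncomputable def rho (n j : ℕ) : MvPolynomial (Fin n ⊕ Fin n) ℂ :=
  if h : 1 ≤ j ∧ j ≤ n then MvPolynomial.X (Sum.inl ⟨j - 1, by omega⟩) else 0

/-- the polynomial `σ_j` (`1 ≤ j ≤ n`), `0` for other `j` -/
noncomputable def sig (n j : ℕ) : MvPolynomial (Fin n ⊕ Fin n) ℂ :=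
  if h : 1 ≤ j ∧ j ≤ n then MvPolynomial.X (Sum.inr ⟨j - 1, by omega⟩) else 0

/-- `½ ∂/∂x_k` on the level of `f` -/
noncomputable def dX {n : ℕ} (a : ℂ) (k : Fin (n + 1)) (f : MvPolynomial (Fin n ⊕ Fin n) ℂ) :
    MvPolynomial (Fin n ⊕ Fin n) ℂ :=
  (MvPolynomial.C a - rho n k + sig n (k + 1)) * f
    + (if h : 1 ≤ (k : ℕ) then MvPolynomial.X (Sum.inl ⟨(k : ℕ) - 1, by omega⟩) *
        MvPolynomial.pderiv (Sum.inl ⟨(k : ℕ) - 1, by omega⟩) f else 0)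
    - (if h : (k : ℕ) < n then MvPolynomial.X (Sum.inr ⟨(k : ℕ), h⟩) *
        MvPolynomial.pderiv (Sum.inr ⟨(k : ℕ), h⟩) f else 0)

/-- `-½ ∂/∂t_k` on the level of `f` -/
noncomputable def dT {n : ℕ} (a : ℂ) (k : Fin n) (f : MvPolynomial (Fin n ⊕ Fin n) ℂ) :
    MvPolynomial (Fin n ⊕ Fin n) ℂ :=
  (MvPolynomial.C a - MvPolynomial.X (Sum.inl k) + MvPolynomial.X (Sum.inr k)) * f
    + MvPolynomial.X (Sum.inl k) * MvPolynomial.pderiv (Sum.inl k) f
    - MvPolynomial.X (Sum.inr k) * MvPolynomial.pderiv (Sum.inr k) f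

/-- the space of smooth functions on `ℝ^n` -/
def Sm (n : ℕ) : Submodule ℂ ((Fin n → ℝ) → ℂ) where
  carrier := {F | ContDiff ℝ (⊤ : ℕ∞) F}
  add_mem' := by
    intro a b ha hb
    exact (show ContDiff ℝ (⊤ : ℕ∞) a from ha).add (show ContDiff ℝ (⊤ : ℕ∞) b from hb)
  zero_mem' := by
    show ContDiff ℝ (⊤ : ℕ∞) (0 : (Fin n → ℝ) → ℂ)
    exact contDiff_const
  smul_mem' := by
    intro c f hf
    exact (show ContDiff ℝ (⊤ : ℕ∞) f from hf).const_smul c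

theorem contDiff_pd {n : ℕ} (k : Fin n) {F : (Fin n → ℝ) → ℂ} (hF : ContDiff ℝ (⊤ : ℕ∞) F) :
    ContDiff ℝ (⊤ : ℕ∞) (pd k F) := by
  unfold pd
  exact (hF.fderiv_right (m := (⊤ : ℕ∞)) (by simp)).clm_apply contDiff_const

/-- the partial derivative as an operator on smooth functions -/
noncomputable def pdL {n : ℕ} (k : Fin n) : Module.End ℂ (Sm n) where
  toFun F := ⟨pd k F.1, contDiff_pd k F.2⟩
  map_add' := by
    intro F G
    apply Subtype.ext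
    funext x
    have h1 : DifferentiableAt ℝ F.1 x :=
      ((show ContDiff ℝ (⊤ : ℕ∞) F.1 from F.2).differentiable (by simp)) x
    have h2 : DifferentiableAt ℝ G.1 x :=
      ((show ContDiff ℝ (⊤ : ℕ∞) G.1 from G.2).differentiable (by simp)) x
    show fderiv ℝ (F.1 + G.1) x _ = fderiv ℝ F.1 x _ + fderiv ℝ G.1 x _
    rw [fderiv_add h1 h2]
    rfl
  map_smul' := by
    intro c F
    apply Subtype.ext
    funext x
    have h1 : DifferentiableAt ℝ F.1 x :=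
      ((show ContDiff ℝ (⊤ : ℕ∞) F.1 from F.2).differentiable (by simp)) x
    show fderiv ℝ (c • F.1) x _ = c • fderiv ℝ F.1 x _
    rw [fderiv_const_smul h1]
    rfl

/-- multiplication by a smooth function -/
def mulL {n : ℕ} (g : (Fin n → ℝ) → ℂ) (hg : ContDiff ℝ (⊤ : ℕ∞) g) : Module.End ℂ (Sm n) where
  toFun F := ⟨fun x => g x * F.1 x,
    hg.mul (show ContDiff ℝ (⊤ : ℕ∞) F.1 from F.2)⟩
  map_add' := by
    intro F G
    apply Subtype.ext
    funext x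
    exact mul_add _ _ _
  map_smul' := by
    intro c F
    apply Subtype.ext
    funext x
    show g x * (c * F.1 x) = c * (g x * F.1 x)
    ring

/-- the function `π² exp (2 (x_j - x_i))` -/
noncomputable def eij {n : ℕ} (i j : Fin n) (x : Fin n → ℝ) : ℂ :=
  ((Real.pi ^ 2 * Real.exp (2 * (x j - x i)) : ℝ) : ℂ)

theorem contDiff_eij {n : ℕ} (i j : Fin n) : ContDiff ℝ (⊤ : ℕ∞) (eij i j) := by
  unfold eij
  have h : ContDiff ℝ (⊤ : ℕ∞) (fun x : Fin n → ℝ => Real.pi ^ 2 * Real.exp (2 * (x j - x i))) := by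
    fun_prop
  exact Complex.ofRealCLM.contDiff.comp h

/-- `½ ∂/∂x_k` (`1 ≤ k ≤ n`), `0` for other `k` -/
noncomputable def pX (n : ℕ) (k : ℕ) : Module.End ℂ (Sm n) :=
  if h : 1 ≤ k ∧ k ≤ n then (1 / 2 : ℂ) • pdL ⟨k - 1, by omega⟩ else 0

/-- multiplication by `π² exp (2 (x_{k+1} - x_k))` (`1 ≤ k < n`), `0` for other `k` -/
noncomputable def TX (n : ℕ) (k : ℕ) : Module.End ℂ (Sm n) :=
  if h : 1 ≤ k ∧ k < n then
    mulL (eij ⟨k - 1, by omega⟩ ⟨k, by omega⟩) (contDiff_eij _ _) else 0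

/-- the differences `ξ_j = x_{j+1} - x_j` -/
def xiOf {N : ℕ} (x : Fin (N + 1) → ℝ) : Fin N → ℝ := fun j => x j.succ - x j.castSucc

/-- the point `x(ξ)` with `x_k = ∑_{j < k} ξ_j` -/
def xOf {N : ℕ} (ξ : Fin N → ℝ) : Fin (N + 1) → ℝ :=
  fun k => ∑ j : Fin N, if (j : ℕ) < k then ξ j else 0

/-! ## Part C: the Jacquet integral -/

/-- index set of the coordinates of a lower unipotent matrix -/
abbrev LIdx (m : ℕ) := {p : Fin m × Fin m // p.2 < p.1}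

/-- lower unipotent matrix -/
def lM {m : ℕ} (v : LIdx m → ℝ) : Matrix (Fin m) (Fin m) ℝ :=
  fun i j => if h : j < i then v ⟨(i, j), h⟩ else if i = j then 1 else 0

/-- `exp (-2π i ∑ v_{j+1,j})` -/
noncomputable def ch {m : ℕ} (v : LIdx m → ℝ) : ℂ :=
  Complex.exp (-(2 * Real.pi * Complex.I) *
    ((∑ p : LIdx m, if (p.1.1 : ℕ) = (p.1.2 : ℕ) + 1 then v p else 0 : ℝ) : ℂ))

/-- lower right principal minor, rows and columns `≥ k` -/
noncomputable def Bm {m : ℕ} (P : Matrix (Fin m) (Fin m) ℝ) (k : Fin m) : ℝ :=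
  (P.submatrix (Subtype.val : {i : Fin m // k ≤ i} → Fin m)
    (Subtype.val : {i : Fin m // k ≤ i} → Fin m)).det

/-- upper left principal minor, rows and columns `≤ k` -/
noncomputable def Um {m : ℕ} (P : Matrix (Fin m) (Fin m) ℝ) (k : Fin m) : ℝ :=
  (P.submatrix (Subtype.val : {i : Fin m // i ≤ k} → Fin m)
    (Subtype.val : {i : Fin m // i ≤ k} → Fin m)).det

/-- `diag (exp (2 x_i))` -/
noncomputable def Dg {m : ℕ} (x : Fin m → ℝ) : Matrix (Fin m) (Fin m) ℝ :=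
  Matrix.diagonal (fun i => Real.exp (2 * x i))

/-- the integrand of the Jacquet integral -/
noncomputable def JnI {m : ℕ} (μ : Fin m → ℂ) (x : Fin (m + 1) → ℝ)
    (v : LIdx (m + 1) → ℝ) : ℂ :=
  (∏ k : Fin m, ((Bm (lM v * Dg x * (lM v).transpose) k.succ : ℝ) : ℂ) ^ (-(μ k) / 2)) * ch v

/-- the Jacquet integral -/
noncomputable def Jn (m : ℕ) (μ : Fin m → ℂ) (x : Fin (m + 1) → ℝ) : ℂ :=
  ∫ v : LIdx (m + 1) → ℝ, JnI μ x v

/-- `π^(-s/2) Γ(s/2)` -/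
noncomputable def GR (s : ℂ) : ℂ := (Real.pi : ℂ) ^ (-s / 2) * Complex.Gamma (s / 2)

/-- the constant `c(μ) = ∏_i ½ Γ_R(1 + ∑_{k ≤ i} (μ_k - 1))` -/
noncomputable def cmu {m : ℕ} (μ : Fin m → ℂ) : ℂ :=
  ∏ i : Fin m, GR (1 + ∑ k : Fin m, if k ≤ i then μ k - 1 else 0) / 2

/-- positive definite matrix `l diag(s²) lᵀ`, `l = lM v` -/
noncomputable def MU {m : ℕ} (q : (Fin m → ℝ) × (LIdx m → ℝ)) : Matrix (Fin m) (Fin m) ℝ :=
  lM q.2 * Matrix.diagonal (fun i => q.1 i ^ 2) * (lM q.2).transpose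

/-- positive definite matrix `lᵀ diag(t²) l`, `l = lM v` -/
noncomputable def ML {m : ℕ} (q : (Fin m → ℝ) × (LIdx m → ℝ)) : Matrix (Fin m) (Fin m) ℝ :=
  (lM q.2).transpose * Matrix.diagonal (fun i => q.1 i ^ 2) * lM q.2

/-- the open orthant -/
def orth (m : ℕ) : Set (Fin m → ℝ) := {t | ∀ i, 0 < t i}

/-- the measure `∏ s_i^(2(m-1-i)) ds dv` on `(0,∞)^m × U` -/
noncomputable def wU (m : ℕ) : Measure ((Fin m → ℝ) × (LIdx m → ℝ)) :=
  ((volume.restrict (orth m)).withDensity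
    (fun s => ENNReal.ofReal (∏ i : Fin m, s i ^ (2 * (m - 1 - (i : ℕ)))))).prod volume

/-- the measure `∏ t_i^(2i) dt dv` on `(0,∞)^m × U` -/
noncomputable def wL (m : ℕ) : Measure ((Fin m → ℝ) × (LIdx m → ℝ)) :=
  ((volume.restrict (orth m)).withDensity
    (fun t => ENNReal.ofReal (∏ i : Fin m, t i ^ (2 * (i : ℕ))))).prod volume

/-- the exponents `β_j / 2` of the upper left minors: `-μ_{j+1}/2` for `j < m - 1` and
`(∑ μ - m)/2` for `j = m - 1` -/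
noncomputable def be {m : ℕ} (μ : Fin m → ℂ) (j : Fin m) : ℂ :=
  if h : (j : ℕ) + 1 < m then -(μ ⟨j + 1, h⟩) / 2 else (∑ k, μ k - m) / 2

/-- `μ_k = 1 + α_k - α_{k+1}` -/
def muOf {m : ℕ} (α : Fin (m + 1) → ℂ) : Fin m → ℂ := fun k => 1 + α k.castSucc - α k.succ

/-- the product of the Gamma factors -/
noncomputable def Gam {n : ℕ} (α : Fin n → ℂ) : ℂ :=
  ∏ j : Fin n, ∏ k : Fin n, if j < k then GR (1 + α j - α k) else 1

end Pool.Agent.W181.WH
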