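import Pool.Agent.W181.WH.Asm

/-!
# Project WH: final assembly
-/

open MeasureTheory

namespace Pool.Agent.W181.WH

theorem exp_cpow' (ξ : ℝ) (z : ℂ) : ((Real.exp ξ : ℝ) : ℂ) ^ z = Complex.exp ((ξ : ℂ) * z) := by
  rw [Complex.cpow_def_of_ne_zero (by
    rw [Complex.ofReal_exp]; exact Complex.exp_ne_zero _), ← Complex.ofReal_log (Real.exp_pos ξ).le,
    Real.log_exp]

/-- the constant in front -/
noncomputable def cs {N : ℕ} (s : Fin N → ℂ) : ℂ :=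
  2 ^ (N * (N + 1) / 2) * ∏ j : Fin N, (Real.pi : ℂ) ^ (2 * s j)

theorem cs_ne {N : ℕ} (s : Fin N → ℂ) : cs s ≠ 0 := by
  unfold cs
  refine mul_ne_zero (pow_ne_zero _ two_ne_zero) (Finset.prod_ne_zero_iff.mpr fun j _ => ?_)
  rw [Complex.cpow_def_of_ne_zero (by exact_mod_cast Real.pi_ne_zero)]
  exact Complex.exp_ne_zero _

/-- the integrand in the variables `ξ` -/
noncomputable def GG {N : ℕ} (α : Fin (N + 1) → ℂ) (s : Fin N → ℂ) (S' : Fin N → ℕ)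
    (ξ : Fin N → ℝ) : ℂ :=
  (∏ j, ((Real.pi ^ 2 * Real.exp (2 * ξ j) : ℝ) : ℂ) ^ (S' j)) *
    Psi (N + 1) (fun i => 2 * α i) (xOf ξ) * Complex.exp (2 * ∑ j, s j * (ξ j : ℂ))

theorem melI_exp {N : ℕ} (W : (Fin (N + 1) → ℂ) → (Fin N → ℝ) → ℂ) (α : Fin (N + 1) → ℂ)
    (hW : ∀ y : Fin N → ℝ, (∀ j, 0 < y j) → W (fun i => 2 * α i) y = W0 N (fun i => 2 * α i) y)
    (s : Fin N → ℂ) (S' : Fin N → ℕ) (ξ : Fin N → ℝ) :
    (∏ j, (Real.exp (ξ j) : ℂ)) *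
      melI W α (fun j => s j + (S' j : ℂ)) (fun j => Real.exp (ξ j)) =
    cs s * GG α s S' ξ := by
  unfold melI
  rw [hW _ (fun j => Real.exp_pos _)]
  unfold W0 cs GG
  simp only [Real.log_exp]
  rw [sum_x]
  have h1 : ∀ j : Fin N, (((Real.pi * Real.exp (ξ j) : ℝ) : ℂ) ^ (2 * (s j + (S' j : ℂ))) /
        ((Real.exp (ξ j) : ℝ) : ℂ) ^ (1 + (((j : ℕ) + 1 : ℕ) : ℂ) * ((N - (j : ℕ) : ℕ) : ℂ) / 2)) *
        (Real.exp (ξ j) : ℂ) =
      (Real.pi : ℂ) ^ (2 * s j) * ((Real.pi ^ 2 * Real.exp (2 * ξ j) : ℝ) : ℂ) ^ (S' j) *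
        Complex.exp (2 * (s j * (ξ j : ℂ))) *
        Complex.exp (-((ξ j * ((((j : ℕ) + 1 : ℕ) : ℝ) * ((N - (j : ℕ) : ℕ) : ℝ) / 2) : ℝ) : ℂ)) := by
    intro j
    have hpi : (Real.pi : ℂ) ≠ 0 := by exact_mod_cast Real.pi_ne_zero
    rw [Complex.ofReal_mul, Complex.mul_cpow_ofReal_nonneg Real.pi_pos.le (Real.exp_pos _).le,
      exp_cpow', exp_cpow', Complex.ofReal_exp]
    have h2 : (Real.pi : ℂ) ^ (2 * (s j + (S' j : ℂ))) =
        (Real.pi : ℂ) ^ (2 * s j) * ((Real.pi : ℂ) ^ 2) ^ (S' j) := by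
      rw [mul_add, Complex.cpow_add _ _ hpi, ← pow_mul, ← Complex.cpow_natCast]
      push_cast
      ring_nf
    rw [h2]
    have h3 : ((Real.pi ^ 2 * Real.exp (2 * ξ j) : ℝ) : ℂ) ^ (S' j) =
        ((Real.pi : ℂ) ^ 2) ^ (S' j) * Complex.exp ((S' j : ℂ) * (2 * (ξ j : ℂ))) := by
      push_cast
      rw [mul_pow, ← Complex.exp_nat_mul]
    rw [h3, div_eq_mul_inv, ← Complex.exp_neg]
    have h4 : Complex.exp ((ξ j : ℂ) * (2 * (s j + (S' j : ℂ)))) *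
        Complex.exp (-((ξ j : ℂ) * (1 + (((j : ℕ) + 1 : ℕ) : ℂ) * ((N - (j : ℕ) : ℕ) : ℂ) / 2))) *
        Complex.exp (ξ j : ℂ) = Complex.exp ((S' j : ℂ) * (2 * (ξ j : ℂ))) *
        Complex.exp (2 * (s j * (ξ j : ℂ))) *
        Complex.exp (-((ξ j * ((((j : ℕ) + 1 : ℕ) : ℝ) * ((N - (j : ℕ) : ℕ) : ℝ) / 2) : ℝ) : ℂ)) := by
      rw [← Complex.exp_add, ← Complex.exp_add, ← Complex.exp_add, ← Complex.exp_add]
      congr 1
      push_cast
      ring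
    linear_combination ((Real.pi : ℂ) ^ (2 * s j) * ((Real.pi : ℂ) ^ 2) ^ (S' j)) * h4
  have h5 : (∏ j, (Real.exp (ξ j) : ℂ)) * ∏ j : Fin N,
      (((Real.pi * Real.exp (ξ j) : ℝ) : ℂ) ^ (2 * (s j + (S' j : ℂ))) /
        ((Real.exp (ξ j) : ℝ) : ℂ) ^ (1 + (((j : ℕ) + 1 : ℕ) : ℂ) * ((N - (j : ℕ) : ℕ) : ℂ) / 2)) =
      (∏ j : Fin N, (Real.pi : ℂ) ^ (2 * s j)) *
      (∏ j, ((Real.pi ^ 2 * Real.exp (2 * ξ j) : ℝ) : ℂ) ^ (S' j)) *
      Complex.exp (2 * ∑ j, s j * (ξ j : ℂ)) *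
      Complex.exp (-((∑ j : Fin N, ξ j *
        ((((j : ℕ) + 1 : ℕ) : ℝ) * ((N - (j : ℕ) : ℕ) : ℝ) / 2) : ℝ) : ℂ)) := by
    rw [← Finset.prod_mul_distrib, Finset.mul_sum, Complex.exp_sum, Complex.ofReal_sum,
      ← Finset.sum_neg_distrib, Complex.exp_sum, ← Finset.prod_mul_distrib,
      ← Finset.prod_mul_distrib, ← Finset.prod_mul_distrib]
    refine Finset.prod_congr rfl fun j _ => ?_
    rw [mul_comm]
    exact h1 j
  rw [mul_left_comm, h5]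
  have h6 : Complex.exp ((∑ j : Fin N, ξ j *
        ((((j : ℕ) + 1 : ℕ) : ℝ) * ((N - (j : ℕ) : ℕ) : ℝ) / 2) : ℝ) : ℂ) *
      Complex.exp (-((∑ j : Fin N, ξ j *
        ((((j : ℕ) + 1 : ℕ) : ℝ) * ((N - (j : ℕ) : ℕ) : ℝ) / 2) : ℝ) : ℂ)) = 1 := by
    rw [← Complex.exp_add, add_neg_cancel, Complex.exp_zero]
  linear_combination (2 ^ (N * (N + 1) / 2) * Psi (N + 1) (fun i => 2 * α i) (xOf ξ) *
    (∏ j : Fin N, (Real.pi : ℂ) ^ (2 * s j)) *
      (∏ j, ((Real.pi ^ 2 * Real.exp (2 * ξ j) : ℝ) : ℂ) ^ (S' j)) *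
      Complex.exp (2 * ∑ j, s j * (ξ j : ℂ))) * h6

theorem mel_GG (hV : S_CV) {N : ℕ} (W : (Fin (N + 1) → ℂ) → (Fin N → ℝ) → ℂ)
    (α : Fin (N + 1) → ℂ)
    (hW : ∀ y : Fin N → ℝ, (∀ j, 0 < y j) → W (fun i => 2 * α i) y = W0 N (fun i => 2 * α i) y)
    (s : Fin N → ℂ) (S' : Fin N → ℕ) :
    (MelConv W α (fun j => s j + (S' j : ℂ)) → Integrable (GG α s S')) ∧
    mel W α (fun j => s j + (S' j : ℂ)) = 2 ^ N * (cs s * ∫ ξ, GG α s S' ξ) := by
  obtain ⟨h1, h2⟩ := hV N (melI W α (fun j => s j + (S' j : ℂ)))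
  simp only [melI_exp W α hW s S'] at h1 h2
  constructor
  · intro h
    have h3 := (h1.mp h).const_mul (cs s)⁻¹
    refine h3.congr (Filter.Eventually.of_forall fun ξ => ?_)
    simp only []
    rw [← mul_assoc, inv_mul_cancel₀ (cs_ne s), one_mul]
  · unfold mel
    rw [h2, integral_const_mul]

theorem eval_prodJ {N n : ℕ} (m : Fin N) (k δ : ℕ) (α : Fin n → ℂ) (s : Fin N → ℂ) :
    MvPolynomial.eval s (prodJ m k δ α) =
      ∏ J ∈ Finset.powersetCard k (Finset.univ : Finset (Fin n)),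
        rise (s m - ∑ j ∈ J, α j) δ := by
  unfold prodJ rise
  rw [map_prod]
  refine Finset.prod_congr rfl fun J _ => ?_
  rw [map_prod]
  refine Finset.prod_congr rfl fun i _ => ?_
  simp

theorem totalDegree_rename_inj {σ τ : Type} {f : σ → τ} (hf : Function.Injective f)
    (p : MvPolynomial σ ℂ) : (MvPolynomial.rename f p).totalDegree = p.totalDegree := by
  refine le_antisymm (MvPolynomial.totalDegree_rename_le f p) ?_
  rw [MvPolynomial.totalDegree_eq]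
  refine Finset.sup_le fun d hd => ?_
  have h1 : d.mapDomain f ∈ (MvPolynomial.rename f p).support := by
    rw [MvPolynomial.mem_support_iff, MvPolynomial.coeff_rename_mapDomain f hf]
    exact MvPolynomial.mem_support_iff.mp hd
  have h2 := MvPolynomial.le_totalDegree h1
  refine le_trans (le_of_eq ?_) h2
  rw [Finsupp.sum_mapDomain_index (fun _ => rfl) (fun _ _ _ => rfl)]
  rw [Finsupp.card_toMultiset]
  rfl

/-- the final theorem from the statements of the parts -/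
theorem final (hC : S_CLAIM) (hI : S_IWA2) (hH : S_HOL) (hU : S_UNIQ) (hV : S_CV)
    (hE : S_EIGX) (hT : S_TRANS) (hX : S_XI) (hM : S_MEL) (hR : S_REP) (hA : S_ALG) (N : ℕ) :
    (∃ W, IsWhittaker N W) ∧
    ∀ (m : Fin N) (δ : ℕ), ∃ (r : ℕ) (P : Fin r → MvPolynomial (Fin N ⊕ Fin (N + 1)) ℂ)
      (S : Fin r → Fin N → ℕ), 1 ≤ r ∧
      (∀ i, P i ≠ 0 ∧
        (P i).totalDegree + 2 * ∑ j, S i j = δ * (N + 1).choose ((m : ℕ) + 1)) ∧
      (∀ i, δ ≤ S i m) ∧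
      ∀ W, IsWhittaker N W → ∀ α : Fin (N + 1) → ℂ, ∑ i, α i = 0 → ∀ s : Fin N → ℂ,
        MelConv W α s → (∀ i, MelConv W α (fun j => s j + (S i j : ℂ))) →
        (∏ J ∈ Finset.powersetCard ((m : ℕ) + 1) (Finset.univ : Finset (Fin (N + 1))),
          rise (s m - ∑ j ∈ J, α j) δ) * mel W α s =
        ∑ i, MvPolynomial.eval (Sum.elim s α) (P i) * mel W α (fun j => s j + (S i j : ℂ)) := by
  refine ⟨⟨W0 N, isWhittaker_W0 hC hI hH N⟩, fun m δ => ?_⟩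
  obtain ⟨R, hR⟩ := hR N
  obtain ⟨r, P, S, hr, hP, hS, hid⟩ := hA N (Sm N) R m δ
  refine ⟨r, fun i => MvPolynomial.rename Sum.inl (P i), S, hr, fun i => ⟨?_, ?_⟩, hS, ?_⟩
  · intro h
    have h' : MvPolynomial.rename (Sum.inl : Fin N → Fin N ⊕ Fin (N + 1)) (P i) = 0 := h
    exact (hP i).1 (MvPolynomial.rename_injective Sum.inl Sum.inl_injective (by rw [h', map_zero]))
  · rw [← (hP i).2]
    congr 1
    exact totalDegree_rename_inj Sum.inl_injective _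
  · intro W hW α hα s h0 hSi
    have h2 : ∑ i, 2 * α i = 0 := by rw [← Finset.mul_sum, hα, mul_zero]
    have hWe : ∀ y : Fin N → ℝ, (∀ j, 0 < y j) →
        W (fun i => 2 * α i) y = W0 N (fun i => 2 * α i) y :=
      fun y hy => eq_W0 hC hI hH hU W hW _ h2 y hy
    have hs0 : (fun j => s j + (((0 : Fin N → ℕ) j : ℕ) : ℂ)) = s := by
      funext j
      simp
    have k0 := mel_GG hV W α hWe s 0
    rw [hs0] at k0
    have kS := fun i => mel_GG hV W α hWe s (S i)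
    have key := mellinF hE hT hX hM R hR m δ r P S hid α hα s (GG α s)
      (fun S' ξ => rfl) (k0.1 h0) (fun i => (kS i).1 (hSi i))
    rw [eval_prodJ] at key
    rw [k0.2]
    simp only [(kS _).2]
    have h3 : ∀ i, MvPolynomial.eval (Sum.elim s α) (MvPolynomial.rename Sum.inl (P i)) =
        MvPolynomial.eval s (P i) := by
      intro i
      rw [MvPolynomial.eval_rename]
      congr 1
    simp only [h3]
    calc _ = 2 ^ N * cs s * ((∏ J ∈ Finset.powersetCard ((m : ℕ) + 1)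
            (Finset.univ : Finset (Fin (N + 1))), rise (s m - ∑ j ∈ J, α j) δ) *
              ∫ ξ, GG α s 0 ξ) := by ring
      _ = _ := by
        rw [key, Finset.mul_sum]
        refine Finset.sum_congr rfl fun i _ => ?_
        ring

end Pool.Agent.W181.WH
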